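import Mathlib
import Pool.Agent.MP_f7ace6_lc.Defs

section

set_option autoImplicit false

namespace Pool.Agent.MP_f7ace6_lc

open Encodable Classical

section
variable {α β γ : Type} [Primcodable α] [Primcodable β] [Primcodable γ] {O : Set (ℕ →. ℕ)}

theorem nri_some : Nat.RecursiveIn O Part.some := Nat.Partrec.some.recursiveIn

theorem nri_prec' {f g h : ℕ →. ℕ} (hf : Nat.RecursiveIn O f) (hg : Nat.RecursiveIn O g)
    (hh : Nat.RecursiveIn O h) :
    Nat.RecursiveIn O fun a => (f a).bind fun n => n.rec (g a)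
      fun y IH => do {let i ← IH; h (Nat.pair a (Nat.pair y i))} :=
  ((Nat.RecursiveIn.prec hg hh).comp (Nat.RecursiveIn.pair nri_some hf)).of_eq fun a =>
    Part.ext fun s => by simp [Seq.seq]

theorem ci_of_eq {f g : α → β} (hf : ComputableIn O f) (H : ∀ n, f n = g n) :
    ComputableIn O g := (funext H : f = g) ▸ hf

theorem ci_pair' {f : α → β} {g : α → γ} (hf : ComputableIn O f) (hg : ComputableIn O g) :
    ComputableIn O fun a => (f a, g a) :=
  (Nat.RecursiveIn.pair hf hg).of_eq fun n => by cases decode (α := α) n <;> simp [Seq.seq]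

theorem ci_comp' {f : β → γ} {g : α → β} (hf : ComputableIn O f) (hg : ComputableIn O g) :
    ComputableIn O fun a => f (g a) :=
  (Nat.RecursiveIn.comp hf hg).of_eq fun n => by
    rcases e : decode (α := α) n with - | a <;> simp [encodek]

theorem ci_rec {f : α → ℕ} {g : α → β} {h : α → ℕ → β → β} (hf : ComputableIn O f)
    (hg : ComputableIn O g) (hh : ComputableIn O fun z : α × ℕ × β => h z.1 z.2.1 z.2.2) :
    ComputableIn O fun a => Nat.rec (motive := fun _ => β) (g a) (h a) (f a) :=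
  (nri_prec' hf hg hh).of_eq fun n => by
    rcases e : decode (α := α) n with - | a
    · simp
    · simp only [Part.coe_some, Part.bind_some, Part.map_some, encode_nat]
      induction f a <;> simp_all

theorem ci_find {f : α → ℕ → Bool} (hf : ComputableIn O fun z : α × ℕ => f z.1 z.2)
    (h : ∀ a, ∃ n, f a n = true) : ComputableIn O fun a => Nat.find (h a) := by
  have h1 : ComputableIn O fun z : α × ℕ => (cond (f z.1 z.2) 0 1 : ℕ) :=
    ci_comp' (f := fun b : Bool => (cond b 0 1 : ℕ)) (Primrec.dom_bool _).computableIn hf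
  refine (Nat.RecursiveIn.rfind h1).of_eq fun n => ?_
  rcases e : decode (α := α) n with - | a
  · simp [e, Nat.rfind_zero_none]
  · simp only [Part.coe_some, Part.bind_some, Part.map_some, encode_nat]
    rw [Part.eq_some_iff, Nat.mem_rfind]
    refine ⟨?_, fun {m} hm => ?_⟩
    · simp [e, Nat.find_spec (h a)]
    · have := Nat.find_min (h a) hm
      simp [e, this]

theorem ci_empty {f : α → β} : ComputableIn ∅ f ↔ Computable f :=
  recursiveIn_empty_iff

theorem ci_trans {o : ℕ → ℕ} {f : α → β} (hf : ComputableIn {fun n => Part.some (o n)} f)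
    (ho : ComputableIn O o) : ComputableIn O f := by
  refine RecursiveIn.subst hf fun g hg => ?_
  rw [Set.mem_singleton_iff.1 hg]
  exact ho

theorem ci_oracle (o : ℕ → ℕ) : ComputableIn {fun n => Part.some (o n)} o :=
  RecursiveIn.oracle _ rfl

/-- A predicate decidable in the oracles `O`. -/
def PIn (O : Set (ℕ →. ℕ)) (p : α → Prop) : Prop := ComputableIn O fun a => decide (p a)

attribute [fun_prop] ComputableIn PIn

@[fun_prop] theorem c_id : ComputableIn O fun x : α => x := ComputableIn.id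
@[fun_prop] theorem c_const (c : β) : ComputableIn O fun _ : α => c := ComputableIn.const c
@[fun_prop] theorem c_comp {f : β → γ} {g : α → β} (hf : ComputableIn O f)
    (hg : ComputableIn O g) : ComputableIn O fun x => f (g x) := ci_comp' hf hg
@[fun_prop] theorem c_fst {f : α → β × γ} (hf : ComputableIn O f) :
    ComputableIn O fun x => (f x).1 := ci_comp' ComputableIn.fst hf
@[fun_prop] theorem c_snd {f : α → β × γ} (hf : ComputableIn O f) :
    ComputableIn O fun x => (f x).2 := ci_comp' ComputableIn.snd hf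
@[fun_prop] theorem c_pair {f : α → β} {g : α → γ} (hf : ComputableIn O f)
    (hg : ComputableIn O g) : ComputableIn O fun x => (f x, g x) := ci_pair' hf hg

theorem c_p1 {F : β → γ} (hF : Primrec F) {f : α → β} (hf : ComputableIn O f) :
    ComputableIn O fun x => F (f x) := ci_comp' hF.computableIn hf
theorem c_p2 {δ : Type} [Primcodable δ] {F : β → γ → δ} (hF : Primrec₂ F) {f : α → β}
    {g : α → γ} (hf : ComputableIn O f) (hg : ComputableIn O g) :
    ComputableIn O fun x => F (f x) (g x) :=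
  ci_comp' (f := fun p : β × γ => F p.1 p.2) (Primrec.computableIn hF) (ci_pair' hf hg)

@[fun_prop] theorem c_add {f g : α → ℕ} (hf : ComputableIn O f) (hg : ComputableIn O g) :
    ComputableIn O fun x => f x + g x := c_p2 Primrec.nat_add hf hg
@[fun_prop] theorem c_tsub {f g : α → ℕ} (hf : ComputableIn O f) (hg : ComputableIn O g) :
    ComputableIn O fun x => f x - g x := c_p2 Primrec.nat_sub hf hg
@[fun_prop] theorem c_mul {f g : α → ℕ} (hf : ComputableIn O f) (hg : ComputableIn O g) :
    ComputableIn O fun x => f x * g x := c_p2 Primrec.nat_mul hf hg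
@[fun_prop] theorem c_div {f g : α → ℕ} (hf : ComputableIn O f) (hg : ComputableIn O g) :
    ComputableIn O fun x => f x / g x := c_p2 Primrec.nat_div hf hg
@[fun_prop] theorem c_mod {f g : α → ℕ} (hf : ComputableIn O f) (hg : ComputableIn O g) :
    ComputableIn O fun x => f x % g x := c_p2 Primrec.nat_mod hf hg
@[fun_prop] theorem c_pow {f g : α → ℕ} (hf : ComputableIn O f) (hg : ComputableIn O g) :
    ComputableIn O fun x => f x ^ g x :=
  c_p2 (F := fun a b : ℕ => a ^ b) (Primrec₂.unpaired'.1 Nat.Primrec.pow) hf hg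
@[fun_prop] theorem c_max {f g : α → ℕ} (hf : ComputableIn O f) (hg : ComputableIn O g) :
    ComputableIn O fun x => max (f x) (g x) := c_p2 Primrec.nat_max hf hg
@[fun_prop] theorem c_npair {f g : α → ℕ} (hf : ComputableIn O f) (hg : ComputableIn O g) :
    ComputableIn O fun x => Nat.pair (f x) (g x) := c_p2 Primrec₂.natPair hf hg
@[fun_prop] theorem c_unpair {f : α → ℕ} (hf : ComputableIn O f) :
    ComputableIn O fun x => Nat.unpair (f x) := c_p1 Primrec.unpair hf
@[fun_prop] theorem c_encode {f : α → β} (hf : ComputableIn O f) :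
    ComputableIn O fun x => Encodable.encode (f x) := c_p1 Primrec.encode hf
@[fun_prop] theorem c_ofNat {δ : Type} [Denumerable δ] {f : α → ℕ} (hf : ComputableIn O f) :
    ComputableIn O fun x => Denumerable.ofNat δ (f x) := c_p1 (Primrec.ofNat δ) hf
@[fun_prop] theorem c_some {f : α → β} (hf : ComputableIn O f) :
    ComputableIn O fun x => some (f x) := c_p1 Primrec.option_some hf
@[fun_prop] theorem c_ogetD {f : α → Option β} {g : α → β} (hf : ComputableIn O f)
    (hg : ComputableIn O g) : ComputableIn O fun x => (f x).getD (g x) :=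
  c_p2 Primrec.option_getD hf hg
@[fun_prop] theorem c_length {f : α → List β} (hf : ComputableIn O f) :
    ComputableIn O fun x => (f x).length := c_p1 Primrec.list_length hf
@[fun_prop] theorem c_cons {f : α → β} {g : α → List β} (hf : ComputableIn O f)
    (hg : ComputableIn O g) : ComputableIn O fun x => f x :: g x := c_p2 Primrec.list_cons hf hg
@[fun_prop] theorem c_append {f g : α → List β} (hf : ComputableIn O f)
    (hg : ComputableIn O g) : ComputableIn O fun x => f x ++ g x :=
  c_p2 Primrec.list_append hf hg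
@[fun_prop] theorem c_getD {f : α → List β} {g : α → ℕ} (d : β) (hf : ComputableIn O f)
    (hg : ComputableIn O g) : ComputableIn O fun x => (f x).getD (g x) d :=
  c_p2 (Primrec.list_getD d) hf hg
@[fun_prop] theorem c_take {f : α → List β} {g : α → ℕ} (hf : ComputableIn O f)
    (hg : ComputableIn O g) : ComputableIn O fun x => (f x).take (g x) :=
  c_p2 Primrec.list_take hg hf
@[fun_prop] theorem c_evaln {k : α → ℕ} {c : α → Nat.Partrec.Code} {n : α → ℕ}
    (hk : ComputableIn O k) (hc : ComputableIn O c) (hn : ComputableIn O n) :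
    ComputableIn O fun x => Nat.Partrec.Code.evaln (k x) (c x) (n x) :=
  c_p1 Nat.Partrec.Code.primrec_evaln (ci_pair' (ci_pair' hk hc) hn)
@[fun_prop] theorem c_curry {c : α → Nat.Partrec.Code} {n : α → ℕ}
    (hc : ComputableIn O c) (hn : ComputableIn O n) :
    ComputableIn O fun x => Nat.Partrec.Code.curry (c x) (n x) :=
  c_p2 Nat.Partrec.Code.primrec₂_curry hc hn

theorem c_cond {c : α → Bool} {f g : α → β} (hc : ComputableIn O c) (hf : ComputableIn O f)
    (hg : ComputableIn O g) : ComputableIn O fun a => cond (c a) (f a) (g a) :=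
  c_p1 (F := fun z : Bool × β × β => cond z.1 z.2.1 z.2.2)
    (Primrec.cond Primrec.fst (Primrec.fst.comp Primrec.snd) (Primrec.snd.comp Primrec.snd))
    (ci_pair' hc (ci_pair' hf hg))

@[fun_prop] theorem c_ite {p : α → Prop} {d : ∀ a, Decidable (p a)} {f g : α → β}
    (hp : PIn O p) (hf : ComputableIn O f) (hg : ComputableIn O g) :
    ComputableIn O fun a => @ite _ (p a) (d a) (f a) (g a) :=
  ci_of_eq (c_cond hp hf hg) fun a => by by_cases h : p a <;> simp [h]
@[fun_prop] theorem c_decide {p : α → Prop} {d : ∀ a, Decidable (p a)}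
    (hp : PIn O p) : ComputableIn O fun a => @decide (p a) (d a) :=
  ci_of_eq hp fun a => by congr

variable {p q : α → Prop}

theorem PIn.of_iff (hp : PIn O p) (h : ∀ a, p a ↔ q a) : PIn O q :=
  (funext fun a => propext (h a) : p = q) ▸ hp

@[fun_prop] theorem p_const (P : Prop) : PIn O fun _ : α => P := c_const _
@[fun_prop] theorem p_comp {p : β → Prop} {g : α → β} (hp : PIn O p)
    (hg : ComputableIn O g) : PIn O fun a => p (g a) := ci_comp' hp hg
@[fun_prop] theorem p_not (hp : PIn O p) : PIn O fun a => ¬ p a :=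
  ci_of_eq (c_p1 Primrec.not hp) fun a => by simp
@[fun_prop] theorem p_and (hp : PIn O p) (hq : PIn O q) : PIn O fun a => p a ∧ q a :=
  ci_of_eq (c_p2 Primrec.and hp hq) fun a => by simp
@[fun_prop] theorem p_or (hp : PIn O p) (hq : PIn O q) : PIn O fun a => p a ∨ q a :=
  ci_of_eq (c_p2 Primrec.or hp hq) fun a => by simp
@[fun_prop] theorem p_imp (hp : PIn O p) (hq : PIn O q) : PIn O fun a => p a → q a :=
  (p_or (p_not hp) hq).of_iff fun a => by tauto
@[fun_prop] theorem p_eq {f g : α → β} (hf : ComputableIn O f) (hg : ComputableIn O g) :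
    PIn O fun a => f a = g a :=
  ci_of_eq (c_p2 (Primrec.eq (α := β)).decide hf hg) fun a => by congr
@[fun_prop] theorem p_ne {f g : α → β} (hf : ComputableIn O f) (hg : ComputableIn O g) :
    PIn O fun a => f a ≠ g a := p_not (p_eq hf hg)
@[fun_prop] theorem p_lt {f g : α → ℕ} (hf : ComputableIn O f) (hg : ComputableIn O g) :
    PIn O fun a => f a < g a :=
  ci_of_eq (c_p2 Primrec.nat_lt.decide hf hg) fun a => by congr
@[fun_prop] theorem p_le {f g : α → ℕ} (hf : ComputableIn O f) (hg : ComputableIn O g) :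
    PIn O fun a => f a ≤ g a :=
  ci_of_eq (c_p2 Primrec.nat_le.decide hf hg) fun a => by congr

/-- Bounded universal quantifier. -/
def Ball (n : ℕ) (P : ℕ → Prop) : Prop := ∀ j < n, P j

@[fun_prop] theorem p_ball {n : α → ℕ} {P : α → ℕ → Prop} (hn : ComputableIn O n)
    (hP : PIn O fun z : α × ℕ => P z.1 z.2) : PIn O fun a => Ball (n a) (P a) := by
  have h := ci_rec (g := fun _ => true) (h := fun a j b => b && decide (P a j)) hn (c_const _)
    (c_p2 Primrec.and (by fun_prop)
      (ci_comp' (g := fun z : α × ℕ × Bool => (z.1, z.2.1)) hP (by fun_prop)))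
  refine ci_of_eq h fun a => ?_
  have key : ∀ m, Nat.rec (motive := fun _ => Bool) true (fun j b => b && decide (P a j)) m
      = decide (Ball m (P a)) := by
    intro m
    induction m with
    | zero => simp [Ball]
    | succ m ih =>
      simp only [ih, Ball]
      rw [← Bool.decide_and]
      exact decide_eq_decide.2 (by rw [Nat.forall_lt_succ_right])
  exact key _

theorem p_find {P : α → ℕ → Prop} {d : ∀ a, DecidablePred (P a)}
    (hP : PIn O fun z : α × ℕ => P z.1 z.2)
    (h : ∀ a, ∃ n, P a n) : ComputableIn O fun a => @Nat.find _ (d a) (h a) := by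
  have h' : ∀ a, ∃ n, @decide (P a n) (propDecidable _) = true := fun a => by simpa using h a
  refine ci_of_eq (ci_find (f := fun a n => @decide (P a n) (propDecidable _)) hP h') fun a => ?_
  exact Nat.find_congr' (by simp)

theorem p_choose {P : α → ℕ → Prop} (hP : PIn O fun z : α × ℕ => P z.1 z.2)
    (h : ∀ a, ∃ n, P a n) :
    ∃ Z : α → ℕ, ComputableIn O Z ∧ ∀ a, P a (Z a) ∧ ∀ m < Z a, ¬ P a m :=
  ⟨fun a => Nat.find (h a), p_find hP h, fun a => ⟨Nat.find_spec (h a), fun _ => Nat.find_min (h a)⟩⟩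

theorem p_of_computablePred (hp : ComputablePred p) : PIn O p := hp.decide.computableIn

theorem p_empty (hp : PIn ∅ p) : ComputablePred p := Computable.computablePred (ci_empty.1 hp)

end

end Pool.Agent.MP_f7ace6_lc

end

section

set_option autoImplicit false

namespace Pool.Agent.MP_f7ace6_lc

open Encodable Classical Nat.Partrec

/-- Lexicographic weight of `x` with respect to the first `p` pairs of principal down-sets. -/
noncomputable def val (R : ℕ → ℕ → Prop) (c : ℕ → ℕ) (x p : ℕ) : ℕ :=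
  Nat.rec (motive := fun _ => ℕ) 0
    (fun i v => 4 * v + 2 * (if R x (c i) then 0 else 1) + (if R x i then 0 else 1)) p

section
variable {R : ℕ → ℕ → Prop} {c : ℕ → ℕ}

theorem val_zero (x : ℕ) : val R c x 0 = 0 := rfl
theorem val_succ (x p : ℕ) : val R c x (p + 1) =
    4 * val R c x p + 2 * (if R x (c p) then 0 else 1) + (if R x p then 0 else 1) := rfl

theorem val_lt (x p : ℕ) : val R c x p < 4 ^ p := by
  induction p with
  | zero => simp [val_zero]
  | succ p ih => rw [val_succ, pow_succ]; split_ifs <;> omega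

theorem val_congr {c' : ℕ → ℕ} (x p : ℕ) (h : ∀ i < p, c i = c' i) :
    val R c x p = val R c' x p := by
  induction p with
  | zero => rfl
  | succ p ih => rw [val_succ, val_succ, ih fun i hi => h i (by omega), h p (by omega)]

theorem val_strict {x y p q : ℕ} (h : val R c x p < val R c y p) (hq : p ≤ q) :
    val R c x q < val R c y q := by
  induction q, hq using Nat.le_induction with
  | base => exact h
  | succ q _ ih => rw [val_succ, val_succ]; split_ifs <;> omega

theorem val_mono (hR : IsPartialOrder ℕ R) {x y : ℕ} (h : R x y) (p : ℕ) :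
    val R c x p ≤ val R c y p := by
  induction p with
  | zero => simp [val_zero]
  | succ p ih =>
    have t : ∀ z, R y z → R x z := fun z hz => hR.trans _ _ _ h hz
    have t1 := t (c p)
    have t2 := t p
    rw [val_succ, val_succ]
    split_ifs <;> first | omega | tauto

theorem val_inj (hR : IsPartialOrder ℕ R) {x y N : ℕ} (hx : x < N) (hy : y < N)
    (h : val R c x N = val R c y N) : x = y := by
  have all : ∀ q ≤ N, val R c x q = val R c y q := by
    intro q hq
    by_contra hne
    rcases Nat.lt_or_gt_of_ne hne with h1 | h1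
    · have := val_strict h1 hq; omega
    · have := val_strict h1 hq; omega
  have key : ∀ z < N, (R x z ↔ R y z) := by
    intro z hz
    have h1 := all (z + 1) hz
    rw [val_succ, val_succ] at h1
    split_ifs at h1 <;> first | omega | tauto
  exact hR.antisymm _ _ ((key y hy).2 (hR.refl y)) ((key x hx).1 (hR.refl x))

/-- The linear order given by the sequence `c` of cut points. -/
def LL (R : ℕ → ℕ → Prop) (c : ℕ → ℕ) (x y : ℕ) : Prop := ∀ p, val R c x p ≤ val R c y p

theorem LL_iff (hR : IsPartialOrder ℕ R) (x y : ℕ) :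
    LL R c x y ↔ val R c x (max x y + 1) ≤ val R c y (max x y + 1) := by
  refine ⟨fun h => h _, fun h p => ?_⟩
  by_cases hxy : x = y
  · rw [hxy]
  have hlt : val R c x (max x y + 1) < val R c y (max x y + 1) :=
    lt_of_le_of_ne h fun he => hxy (val_inj hR (by omega) (by omega) he)
  by_contra hc
  rcases le_total p (max x y + 1) with hp | hp
  · have := val_strict (not_le.1 hc) hp; omega
  · have := val_strict hlt hp; omega

theorem LL_linExt (hR : IsPartialOrder ℕ R) : LinExt R (LL R c) := by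
  refine ⟨?_, fun x y h p => val_mono hR h p⟩
  exact
    { refl := fun x p => le_rfl
      trans := fun x y z h1 h2 p => (h1 p).trans (h2 p)
      antisymm := fun x y h1 h2 =>
        val_inj hR (c := c) (N := max x y + 1) (by omega) (by omega) (le_antisymm (h1 _) (h2 _))
      total := fun x y => by
        rw [LL_iff hR, LL_iff hR, max_comm y x]; exact le_total _ _ }

end

/-- The value of the `e`-th program on `i` within `T` steps (0 if none). -/
def ev (T e i : ℕ) : ℕ := (Code.evaln T (Denumerable.ofNat Code e) i).getD 0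

/-- The next cut point. -/
noncomputable def pick (R : ℕ → ℕ → Prop) (l : List ℕ) (T : ℕ) : ℕ :=
  Nat.rec (motive := fun _ => ℕ) 0
    (fun i acc =>
      if val R (fun j => l.getD j 0) (ev T l.length.unpair.2 i).unpair.1 l.length =
          val R (fun j => l.getD j 0) (ev T l.length.unpair.2 i).unpair.2 l.length
      then (ev T l.length.unpair.2 i).unpair.1 else acc) (4 ^ l.length)

/-- The list of the first `p` cut points for the clock `T`. -/
noncomputable def cl (R : ℕ → ℕ → Prop) (T : ℕ → ℕ) (p : ℕ) : List ℕ :=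
  Nat.rec (motive := fun _ => List ℕ) [] (fun i l => l ++ [pick R l (T i)]) p

/-- The cut points for the clock `T`. -/
noncomputable def cc (R : ℕ → ℕ → Prop) (T : ℕ → ℕ) (p : ℕ) : ℕ := pick R (cl R T p) (T p)

section
variable {R : ℕ → ℕ → Prop} {T : ℕ → ℕ}

theorem cl_succ (p : ℕ) : cl R T (p + 1) = cl R T p ++ [cc R T p] := rfl

theorem cl_length (p : ℕ) : (cl R T p).length = p := by
  induction p with
  | zero => rfl
  | succ p ih => simp [cl_succ, ih]

theorem cl_getD (p j : ℕ) (h : j < p) : (cl R T p).getD j 0 = cc R T j := by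
  induction p with
  | zero => omega
  | succ p ih =>
    rw [cl_succ]
    rcases Nat.lt_succ_iff_lt_or_eq.1 h with h1 | h1
    · rw [List.getD_append _ _ _ _ (by rw [cl_length]; exact h1), ih h1]
    · rw [List.getD_append_right _ _ _ _ (by rw [cl_length]; omega), cl_length, h1]; simp

theorem val_cl (x p : ℕ) : val R (fun j => (cl R T p).getD j 0) x p = val R (cc R T) x p :=
  val_congr x p fun i hi => cl_getD p i hi

theorem rec_pick {P : ℕ → Prop} [DecidablePred P] {g : ℕ → ℕ} {n : ℕ} (h : ∃ i < n, P i) :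
    ∃ i < n, P i ∧ Nat.rec (motive := fun _ => ℕ) 0 (fun i acc => if P i then g i else acc) n = g i := by
  induction n with
  | zero => obtain ⟨i, hi, -⟩ := h; omega
  | succ n ih =>
    by_cases hn : P n
    · exact ⟨n, by omega, hn, by simp [hn]⟩
    · obtain ⟨i, hi, hP⟩ := h
      have hi' : i < n := by
        rcases Nat.lt_succ_iff_lt_or_eq.1 hi with h1 | h1
        · exact h1
        · exact absurd (h1 ▸ hP) hn
      obtain ⟨j, hj, hPj, he⟩ := ih ⟨i, hi', hP⟩
      exact ⟨j, by omega, hPj, by simp [hn, he]⟩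

theorem defeat (hR : IsPartialOrder ℕ R) (p : ℕ)
    (hj : ∀ i < 4 ^ p, ¬ R (ev (T p) p.unpair.2 i).unpair.2 (ev (T p) p.unpair.2 i).unpair.1) :
    ¬ ∀ i < 4 ^ p,
      LL R (cc R T) (ev (T p) p.unpair.2 i).unpair.2 (ev (T p) p.unpair.2 i).unpair.1 ∧
      (i + 1 < 4 ^ p →
        LL R (cc R T) (ev (T p) p.unpair.2 (i + 1)).unpair.1 (ev (T p) p.unpair.2 i).unpair.2) := by
  intro hd
  have hex : ∃ i < 4 ^ p, val R (cc R T) (ev (T p) p.unpair.2 i).unpair.1 p =
      val R (cc R T) (ev (T p) p.unpair.2 i).unpair.2 p := by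
    by_contra hne
    push Not at hne
    have hs : ∀ i < 4 ^ p, val R (cc R T) (ev (T p) p.unpair.2 i).unpair.2 p + i + 1 ≤
        val R (cc R T) (ev (T p) p.unpair.2 0).unpair.1 p := by
      intro i
      induction i with
      | zero =>
        intro hi
        have h1 := (hd 0 hi).1 p
        have h2 := hne 0 hi
        omega
      | succ i ih =>
        intro hi
        have h0 := ih (by omega)
        have h1 := (hd (i + 1) hi).1 p
        have h2 := hne (i + 1) hi
        have h3 := (hd i (by omega)).2 hi p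
        omega
    have hpos : 0 < 4 ^ p := by positivity
    have h1 := hs (4 ^ p - 1) (by omega)
    have h2 := val_lt (R := R) (c := cc R T) (ev (T p) p.unpair.2 0).unpair.1 p
    omega
  obtain ⟨i, hi, hP, he⟩ := rec_pick (g := fun i => (ev (T p) p.unpair.2 i).unpair.1) hex
  have hc : cc R T p = (ev (T p) p.unpair.2 i).unpair.1 := by
    show pick R (cl R T p) (T p) = _
    unfold pick
    simp only [cl_length, val_cl]
    exact he
  have h1 := (hd i hi).1 (p + 1)
  rw [val_succ, val_succ, hc, if_neg (hj i hi), if_pos (hR.refl _), hP] at h1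
  split_ifs at h1 <;> omega

end

section
variable {O : Set (ℕ →. ℕ)} {R : ℕ → ℕ → Prop}

@[fun_prop] theorem c_ev {α : Type} [Primcodable α] {f g h : α → ℕ} (hf : ComputableIn O f)
    (hg : ComputableIn O g) (hh : ComputableIn O h) :
    ComputableIn O fun a => ev (f a) (g a) (h a) := by
  unfold ev; fun_prop

theorem p_rel {α : Type} [Primcodable α] (hR : PIn O fun z : ℕ × ℕ => R z.1 z.2) {f g : α → ℕ}
    (hf : ComputableIn O f) (hg : ComputableIn O g) : PIn O fun a => R (f a) (g a) :=
  p_comp (p := fun z : ℕ × ℕ => R z.1 z.2) hR (c_pair hf hg)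

theorem c_val {α : Type} [Primcodable α] (hR : PIn O fun z : ℕ × ℕ => R z.1 z.2)
    {l : α → List ℕ} {x p : α → ℕ} (hl : ComputableIn O l) (hx : ComputableIn O x)
    (hp : ComputableIn O p) :
    ComputableIn O fun a => val R (fun j => (l a).getD j 0) (x a) (p a) := by
  unfold val
  refine ci_rec hp (c_const 0) ?_
  refine c_add (c_add (by fun_prop) (c_mul (c_const 2) (c_ite ?_ (c_const 0) (c_const 1))))
    (c_ite ?_ (c_const 0) (c_const 1))
  · exact p_rel hR (by fun_prop) (by fun_prop)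
  · exact p_rel hR (by fun_prop) (by fun_prop)

theorem c_pick {α : Type} [Primcodable α] (hR : PIn O fun z : ℕ × ℕ => R z.1 z.2)
    {l : α → List ℕ} {t : α → ℕ} (hl : ComputableIn O l) (ht : ComputableIn O t) :
    ComputableIn O fun a => pick R (l a) (t a) := by
  unfold pick
  refine ci_rec (by fun_prop) (c_const 0) ?_
  refine c_ite (p_eq ?_ ?_) (by fun_prop) (by fun_prop)
  · exact c_val hR (by fun_prop) (by fun_prop) (by fun_prop)
  · exact c_val hR (by fun_prop) (by fun_prop) (by fun_prop)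

theorem c_cl (hR : PIn O fun z : ℕ × ℕ => R z.1 z.2) {T : ℕ → ℕ} (hT : ComputableIn O T) :
    ComputableIn O (cl R T) := by
  unfold cl
  refine ci_rec (f := fun p : ℕ => p) (h := fun _ i l => l ++ [pick R l (T i)]) c_id (c_const []) ?_
  exact c_append (by fun_prop) (c_cons (c_pick hR (by fun_prop) (by fun_prop)) (c_const []))

end

/-- No computable sequence of pairs, each incomparable in the needed direction, descends in `L`. -/
def Good (R L : ℕ → ℕ → Prop) : Prop :=
  ∀ u : ℕ → ℕ, Computable u → (∀ i, ¬ R (u i).unpair.2 (u i).unpair.1) →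
    ¬ ∀ i, L (u i).unpair.2 (u i).unpair.1 ∧ L (u (i + 1)).unpair.1 (u i).unpair.2

theorem exists_index {u : ℕ → ℕ} (hu : Computable u) :
    ∃ e, ∀ i, u i ∈ Code.eval (Denumerable.ofNat Code e) i := by
  obtain ⟨c, hc⟩ := Code.exists_code.1 (Partrec.nat_iff.1 hu.partrec)
  exact ⟨encode c, fun i => by simp [hc]⟩

theorem exists_time {e : ℕ} {u : ℕ → ℕ} (n : ℕ)
    (h : ∀ i < n, u i ∈ Code.eval (Denumerable.ofNat Code e) i) :
    ∃ T, ∀ i < n, Code.evaln T (Denumerable.ofNat Code e) i = some (u i) := by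
  induction n with
  | zero => exact ⟨0, fun i hi => by omega⟩
  | succ n ih =>
    obtain ⟨T, hT⟩ := ih fun i hi => h i (by omega)
    obtain ⟨k, hk⟩ := Code.evaln_complete.1 (h n (by omega))
    refine ⟨max T k, fun i hi => ?_⟩
    rcases Nat.lt_succ_iff_lt_or_eq.1 hi with h1 | h1
    · exact Code.evaln_mono (le_max_left _ _) (hT i h1)
    · subst h1; exact Code.evaln_mono (le_max_right _ _) hk

theorem upper_hyp {R : ℕ → ℕ → Prop} (hR : CompPoset R) {o : ℕ → ℕ} (ho : Hyperimmune o) :
    ∃ L, LinExt R L ∧ Good R L ∧ RelIn o L := by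
  obtain ⟨f, hf, hnd⟩ := ho
  have hf' : ComputableIn {fun n => Part.some (o n)} f := hf
  refine ⟨LL R (cc R fun p => f p.unpair.1), LL_linExt hR.1, ?_, ?_⟩
  · intro u hu hj hd
    obtain ⟨e, he⟩ := exists_index hu
    have hex : ∀ n, ∃ T, Ball (4 ^ Nat.pair n e) fun i =>
        Code.evaln T (Denumerable.ofNat Code e) i = some (u i) :=
      fun n => exists_time _ fun i _ => he i
    have hu' : ComputableIn ∅ u := hu.computableIn
    have ht : Computable fun n => Nat.find (hex n) := ci_empty.1 (p_find (by fun_prop) hex)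
    obtain ⟨n, -, hn⟩ := hnd _ ht 0
    have hw : ∀ i < 4 ^ Nat.pair n e, ev (f n) e i = u i := by
      intro i hi
      have := Code.evaln_mono hn.le (Nat.find_spec (hex n) i hi)
      unfold ev
      rw [Option.mem_def.1 this]; rfl
    refine defeat (T := fun p => f p.unpair.1) hR.1 (Nat.pair n e) ?_ ?_
    · intro i hi
      simp only [Nat.unpair_pair]
      rw [hw i hi]; exact hj i
    · intro i hi
      simp only [Nat.unpair_pair]
      rw [hw i hi]
      exact ⟨(hd i).1, fun h => by rw [hw _ h]; exact (hd i).2⟩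
  · have hRp : PIn {fun n => Part.some (o n)} fun z : ℕ × ℕ => R z.1 z.2 :=
      p_of_computablePred hR.2
    have hcl := c_cl hRp (T := fun p => f p.unpair.1) (by fun_prop)
    refine ⟨fun z => if val R (fun j => (cl R (fun p => f p.unpair.1)
        (max z.unpair.1 z.unpair.2 + 1)).getD j 0) z.unpair.1 (max z.unpair.1 z.unpair.2 + 1) ≤
        val R (fun j => (cl R (fun p => f p.unpair.1)
        (max z.unpair.1 z.unpair.2 + 1)).getD j 0) z.unpair.2 (max z.unpair.1 z.unpair.2 + 1)
        then 1 else 0, ?_, fun x y => ?_⟩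
    · refine c_ite (O := {fun n => Part.some (o n)}) (p_le ?_ ?_) (c_const 1) (c_const 0)
      · exact c_val hRp (c_comp hcl (by fun_prop)) (by fun_prop) (by fun_prop)
      · exact c_val hRp (c_comp hcl (by fun_prop)) (by fun_prop) (by fun_prop)
    · simp only [Nat.unpair_pair, val_cl]
      rw [LL_iff hR.1]
      split_ifs with h <;> simp [h]

end Pool.Agent.MP_f7ace6_lc

end

section

set_option autoImplicit false

namespace Pool.Agent.MP_f7ace6_lc

open Encodable Classical Nat.Partrec

/-- Bit `a` of `w` is set. -/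
def bt (w a : ℕ) : Prop := w / 2 ^ a % 2 = 1

theorem bt_iff (w a : ℕ) : bt w a ↔ w.testBit a = true := by
  rw [Nat.testBit_eq_decide_div_mod_eq]; simp [bt]

theorem bt_congr {w w' s a : ℕ} (h : w % 2 ^ s = w' % 2 ^ s) (ha : a < s) : bt w a ↔ bt w' a := by
  have := congrArg (fun z => Nat.testBit z a) h
  simp only [Nat.testBit_mod_two_pow, ha, decide_true, Bool.true_and] at this
  rw [bt_iff, bt_iff, this]

theorem exists_bits (X : ℕ → Prop) (s : ℕ) : ∃ w, ∀ a < s, (bt w a ↔ X a) := by
  induction s with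
  | zero => exact ⟨0, fun a ha => by omega⟩
  | succ s ih =>
    obtain ⟨w, hw⟩ := ih
    refine ⟨2 ^ s * (if X s then 1 else 0) + w % 2 ^ s, fun a ha => ?_⟩
    rw [bt_iff, Nat.testBit_two_pow_mul_add _ (Nat.mod_lt _ (by positivity))]
    rcases Nat.lt_succ_iff_lt_or_eq.1 ha with h | h
    · rw [if_pos h, ← hw a h, bt_iff, Nat.testBit_mod_two_pow]; simp [h]
    · subst h
      by_cases hx : X a <;> simp [hx]

theorem mod_pow_mod {w m n : ℕ} (h : m ≤ n) : w % 2 ^ n % 2 ^ m = w % 2 ^ m :=
  Nat.mod_mod_of_dvd _ (pow_dvd_pow 2 h)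

section Path
variable {C : ℕ → ℕ → Prop}

/-- The string of length `n` coded by `w` has an extension passing all tests up to `s`. -/
def Surv (C : ℕ → ℕ → Prop) (n w s : ℕ) : Prop := ∃ w', w' % 2 ^ n = w ∧ ∀ i ≤ s, C w' i

/-- Bounded form of the failure of `Surv`. -/
def Dead (C : ℕ → ℕ → Prop) (n w s : ℕ) : Prop :=
  Ball (2 ^ (s + n)) fun w' => ¬ (w' % 2 ^ n = w ∧ Ball (s + 1) fun i => C w' i)

theorem dead_iff (hloc : ∀ w w' s, w % 2 ^ s = w' % 2 ^ s → C w s → C w' s) (n w s : ℕ) :
    Dead C n w s ↔ ¬ Surv C n w s := by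
  constructor
  · rintro h ⟨w', h1, h2⟩
    refine h (w' % 2 ^ (s + n)) (Nat.mod_lt _ (by positivity)) ⟨?_, fun i hi => ?_⟩
    · rw [mod_pow_mod (by omega), h1]
    · exact hloc w' _ i (mod_pow_mod (by omega)).symm (h2 i (by omega))
  · rintro h w' - ⟨h1, h2⟩
    exact h ⟨w', h1, fun i hi => h2 i (by omega)⟩

theorem surv_step {n w : ℕ} (h : ∀ s, Surv C n w s) :
    (∀ s, Surv C (n + 1) w s) ∨ ∀ s, Surv C (n + 1) (w + 2 ^ n) s := by
  by_contra hc
  push Not at hc
  obtain ⟨⟨s0, h0⟩, s1, h1⟩ := hc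
  obtain ⟨w', hw, hC⟩ := h (max s0 s1)
  have e : w' % 2 ^ (n + 1) = w + 2 ^ n * (w' / 2 ^ n % 2) := by rw [Nat.mod_pow_succ, hw]
  rcases Nat.mod_two_eq_zero_or_one (w' / 2 ^ n) with h2 | h2
  · exact h0 ⟨w', by rw [e, h2]; simp, fun i hi => hC i (by omega)⟩
  · exact h1 ⟨w', by rw [e, h2]; simp, fun i hi => hC i (by omega)⟩

theorem pa_path (hC : PIn ∅ fun z : ℕ × ℕ => C z.1 z.2)
    (hloc : ∀ w w' s, w % 2 ^ s = w' % 2 ^ s → C w s → C w' s)
    (hne : ∀ s, ∃ w, ∀ i ≤ s, C w i) {o : ℕ → ℕ} (ho : PADegree o) :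
    ∃ W : ℕ → ℕ, ComputableIn {fun n => Part.some (o n)} W ∧ (∀ s, C (W s) s) ∧
      ∀ m n, m ≤ n → W n % 2 ^ m = W m := by
  obtain ⟨d, hd, hdnc⟩ := ho
  have hd' : ComputableIn {fun n => Part.some (o n)} d := hd
  have hD : PIn ∅ fun z : ℕ × ℕ × ℕ => Dead C z.1 z.2.1 z.2.2 := by
    unfold Dead
    refine p_ball (by fun_prop) (p_not (p_and (by fun_prop) (p_ball (by fun_prop) ?_)))
    exact p_rel hC (by fun_prop) (by fun_prop)
  let F : ℕ → ℕ → Option ℕ := fun z s =>
    if Dead C (z.unpair.1.unpair.1 + 1) z.unpair.1.unpair.2 s then some 0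
    else if Dead C (z.unpair.1.unpair.1 + 1) (z.unpair.1.unpair.2 + 2 ^ z.unpair.1.unpair.1) s
      then some 1 else Option.none
  have hF : Computable₂ F := by
    refine ci_empty.1 (c_ite ?_ (c_const _) (c_ite ?_ (c_const _) (c_const _)))
    · exact p_comp (g := fun p : ℕ × ℕ => (p.1.unpair.1.unpair.1 + 1, p.1.unpair.1.unpair.2, p.2))
        hD (by fun_prop)
    · exact p_comp (g := fun p : ℕ × ℕ => (p.1.unpair.1.unpair.1 + 1,
        p.1.unpair.1.unpair.2 + 2 ^ p.1.unpair.1.unpair.1, p.2)) hD (by fun_prop)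
  obtain ⟨c, hc⟩ := Code.exists_code.1 (Partrec.nat_iff.1 (Partrec.rfindOpt hF))
  let W : ℕ → ℕ := fun n => Nat.rec (motive := fun _ => ℕ) 0
    (fun i w => w + 2 ^ i * d (encode (Code.curry c (Nat.pair i w)))) n
  have hW0 : W 0 = 0 := rfl
  have hWs : ∀ n, W (n + 1) = W n + 2 ^ n * d (encode (Code.curry c (Nat.pair n (W n)))) :=
    fun n => rfl
  have hnot : ∀ n w v, v ∈ Nat.rfindOpt (F (Nat.pair (Nat.pair n w)
      (encode (Code.curry c (Nat.pair n w))))) → d (encode (Code.curry c (Nat.pair n w))) ≠ v := by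
    intro n w v hv he
    have := (hdnc (encode (Code.curry c (Nat.pair n w)))).2
    rw [Denumerable.ofNat_encode, Code.eval_curry, hc, he] at this
    exact this hv
  have halive : ∀ n s, Surv C n (W n) s := by
    intro n
    induction n with
    | zero =>
      intro s
      obtain ⟨w, hw⟩ := hne s
      exact ⟨w, by simp [hW0, Nat.mod_one], hw⟩
    | succ n ih =>
      have hb := (hdnc (encode (Code.curry c (Nat.pair n (W n))))).1
      have hdom : ∀ s, (Dead C (n + 1) (W n) s ∨ Dead C (n + 1) (W n + 2 ^ n) s) →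
          ∃ v s', v ∈ Nat.rfindOpt (F (Nat.pair (Nat.pair n (W n))
            (encode (Code.curry c (Nat.pair n (W n)))))) ∧
            v ∈ F (Nat.pair (Nat.pair n (W n)) (encode (Code.curry c (Nat.pair n (W n))))) s' := by
        intro s hs
        have : (Nat.rfindOpt (F (Nat.pair (Nat.pair n (W n))
            (encode (Code.curry c (Nat.pair n (W n))))))).Dom := by
          rw [Nat.rfindOpt_dom]
          refine ⟨s, ?_⟩
          simp only [F, Nat.unpair_pair]
          by_cases h0 : Dead C (n + 1) (W n) s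
          · exact ⟨0, by simp [h0]⟩
          · exact ⟨1, by simp [h0, hs.resolve_left h0]⟩
        obtain ⟨v, hv⟩ := Part.dom_iff_mem.1 this
        obtain ⟨s', hs'⟩ := Nat.rfindOpt_spec hv
        exact ⟨v, s', hv, hs'⟩
      intro s
      rw [hWs]
      by_contra hc'
      rcases Nat.le_one_iff_eq_zero_or_eq_one.1 hb with h0 | h1
      · rw [h0, mul_zero, add_zero] at hc'
        have h2 := (surv_step ih).resolve_left fun h => hc' (h s)
        obtain ⟨v, s', hv, hs'⟩ := hdom s (Or.inl ((dead_iff hloc _ _ _).2 hc'))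
        simp only [F, Nat.unpair_pair] at hs'
        split_ifs at hs' with k1 k2
        · exact hnot n (W n) v hv (by rw [h0]; simpa using hs')
        · exact (dead_iff hloc _ _ _).1 k2 (h2 s')
        · simp at hs'
      · rw [h1, mul_one] at hc'
        have h2 := (surv_step ih).resolve_right fun h => hc' (h s)
        obtain ⟨v, s', hv, hs'⟩ := hdom s (Or.inr ((dead_iff hloc _ _ _).2 hc'))
        simp only [F, Nat.unpair_pair] at hs'
        split_ifs at hs' with k1 k2
        · exact (dead_iff hloc _ _ _).1 k1 (h2 s')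
        · exact hnot n (W n) v hv (by rw [h1]; simpa using hs')
        · simp at hs'
  have hlt : ∀ n, W n % 2 ^ n = W n := by
    intro n
    obtain ⟨w', h1, -⟩ := halive n 0
    rw [← h1, Nat.mod_mod]
  refine ⟨W, ?_, fun s => ?_, fun m n hmn => ?_⟩
  · exact ci_rec (f := fun n : ℕ => n)
      (h := fun _ i w => w + 2 ^ i * d (encode (Code.curry c (Nat.pair i w)))) c_id (c_const 0)
      (by fun_prop)
  · obtain ⟨w', h1, h2⟩ := halive s s
    exact hloc w' _ s (by rw [h1, hlt]) (h2 s le_rfl)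
  · induction n, hmn using Nat.le_induction with
    | base => exact hlt m
    | succ n hmn ih =>
      obtain ⟨k, rfl⟩ := Nat.exists_eq_add_of_le hmn
      rw [hWs, pow_add, mul_assoc, Nat.add_mul_mod_self_left, ih]

end Path

/-- The finite test of level `s` on the set `X` of codes of pairs. -/
def Cond (R : ℕ → ℕ → Prop) (X : ℕ → Prop) (s : ℕ) : Prop :=
  (Ball s fun a => R a.unpair.1 a.unpair.2 → X a) ∧
  (Ball s fun a => Ball s fun b => a.unpair.1 = b.unpair.2 → a.unpair.2 = b.unpair.1 →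
    ((X a ∨ X b) ∧ (X a → X b → a.unpair.1 = a.unpair.2))) ∧
  (Ball s fun a => Ball s fun b => Ball s fun c => a.unpair.2 = b.unpair.1 →
    c.unpair.1 = a.unpair.1 → c.unpair.2 = b.unpair.2 → X a → X b → X c) ∧
  (Ball s fun e => (Ball (4 ^ Nat.pair 0 e) fun i =>
      Code.evaln s (Denumerable.ofNat Code e) i ≠ Option.none ∧
      ¬ R (ev s e i).unpair.2 (ev s e i).unpair.1 ∧
      Nat.pair (ev s e i).unpair.2 (ev s e i).unpair.1 < s ∧
      (i + 1 < 4 ^ Nat.pair 0 e → Nat.pair (ev s e (i + 1)).unpair.1 (ev s e i).unpair.2 < s)) →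
    ¬ Ball (4 ^ Nat.pair 0 e) fun i => X (Nat.pair (ev s e i).unpair.2 (ev s e i).unpair.1) ∧
      (i + 1 < 4 ^ Nat.pair 0 e → X (Nat.pair (ev s e (i + 1)).unpair.1 (ev s e i).unpair.2)))

theorem cond_local {R : ℕ → ℕ → Prop} {X Y : ℕ → Prop} {s : ℕ} (h : ∀ a < s, (X a ↔ Y a))
    (hX : Cond R X s) : Cond R Y s := by
  obtain ⟨h1, h2, h3, h4⟩ := hX
  refine ⟨fun a ha hr => (h a ha).1 (h1 a ha hr), fun a ha b hb e1 e2 => ?_,
    fun a ha b hb c hc e1 e2 e3 k1 k2 => ?_, fun e he hp hy => h4 e he hp fun i hi => ?_⟩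
  · rw [← h a ha, ← h b hb]; exact h2 a ha b hb e1 e2
  · exact (h c hc).1 (h3 a ha b hb c hc e1 e2 e3 ((h a ha).2 k1) ((h b hb).2 k2))
  · obtain ⟨-, -, g1, g2⟩ := hp i hi
    exact ⟨(h _ g1).2 (hy i hi).1, fun k => (h _ (g2 k)).2 ((hy i hi).2 k)⟩

theorem p_cond {R : ℕ → ℕ → Prop} (hR : PIn ∅ fun z : ℕ × ℕ => R z.1 z.2) :
    PIn ∅ fun z : ℕ × ℕ => Cond R (bt z.1) z.2 := by
  unfold Cond bt
  refine p_and (p_ball (by fun_prop) (p_imp (p_rel hR (by fun_prop) (by fun_prop)) (by fun_prop)))
    (p_and (by fun_prop) (p_and (by fun_prop) (p_ball (by fun_prop) (p_imp (p_ball (by fun_prop)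
      (p_and (by fun_prop) (p_and (p_not (p_rel hR (by fun_prop) (by fun_prop))) (by fun_prop))))
      (by fun_prop)))))

theorem exists_modulus (e n : ℕ) : ∃ T, ∀ i < n, ∀ s,
    Code.evaln s (Denumerable.ofNat Code e) i ≠ Option.none → ev T e i = ev s e i := by
  obtain ⟨u, hu⟩ : ∃ u : ℕ → ℕ, ∀ i s,
      Code.evaln s (Denumerable.ofNat Code e) i ≠ Option.none →
        Code.evaln (u i) (Denumerable.ofNat Code e) i ≠ Option.none := by
    refine ⟨fun i => if h : ∃ s, Code.evaln s (Denumerable.ofNat Code e) i ≠ Option.none then h.choose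
      else 0, fun i s hs => ?_⟩
    have h : ∃ s, Code.evaln s (Denumerable.ofNat Code e) i ≠ Option.none := ⟨s, hs⟩
    simp only [dif_pos h]
    exact h.choose_spec
  refine ⟨(Finset.range n).sup u, fun i hi s hs => ?_⟩
  obtain ⟨v, hv⟩ := Option.ne_none_iff_exists'.1 hs
  obtain ⟨v', hv'⟩ := Option.ne_none_iff_exists'.1 (hu i s hs)
  have h1 : v = v' := Part.mem_unique (Code.evaln_sound hv) (Code.evaln_sound hv')
  have h2 := Code.evaln_mono (Finset.le_sup (f := u) (Finset.mem_range.2 hi)) hv'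
  unfold ev
  rw [Option.mem_def.1 h2, hv, h1]

theorem cond_exists {R : ℕ → ℕ → Prop} (hR : IsPartialOrder ℕ R) :
    ∃ X : ℕ → Prop, ∀ s, Cond R X s := by
  choose T hT using fun p : ℕ => exists_modulus p.unpair.2 (4 ^ p)
  obtain ⟨hL, hext⟩ := LL_linExt (c := cc R T) hR
  refine ⟨fun a => LL R (cc R T) a.unpair.1 a.unpair.2, fun s =>
    ⟨fun a _ hr => hext _ _ hr, fun a _ b _ e1 e2 => ?_,
      fun a _ b _ c _ e1 e2 e3 k1 k2 => ?_, fun e _ hp hy => ?_⟩⟩
  · simp only [← e1, ← e2]
    exact ⟨hL.total _ _, hL.antisymm _ _⟩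
  · simp only [e2, e3]
    exact hL.trans _ _ _ k1 (e1 ▸ k2)
  · have hw : ∀ i < 4 ^ Nat.pair 0 e, ev (T (Nat.pair 0 e)) e i = ev s e i := by
      intro i hi
      have := hT (Nat.pair 0 e) i hi s
      simp only [Nat.unpair_pair] at this
      exact this (hp i hi).1
    refine defeat (T := T) hR (Nat.pair 0 e) (fun i hi => ?_) fun i hi => ?_
    · simp only [Nat.unpair_pair]
      rw [hw i hi]; exact (hp i hi).2.1
    · have := hy i hi
      simp only [Nat.unpair_pair] at this ⊢
      rw [hw i hi]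
      exact ⟨this.1, fun k => by rw [hw _ k]; exact this.2 k⟩

theorem good_of_cond {R : ℕ → ℕ → Prop} (hR : IsPartialOrder ℕ R) {X : ℕ → Prop}
    (hX : ∀ s, Cond R X s) :
    LinExt R (fun x y => X (Nat.pair x y)) ∧ Good R fun x y => X (Nat.pair x y) := by
  have hext : ∀ x y, R x y → X (Nat.pair x y) := fun x y h =>
    (hX (Nat.pair x y + 1)).1 _ (by omega) (by simpa using h)
  have h2 : ∀ x y, (X (Nat.pair x y) ∨ X (Nat.pair y x)) ∧
      (X (Nat.pair x y) → X (Nat.pair y x) → x = y) := fun x y => by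
    simpa using (hX (Nat.pair x y + Nat.pair y x + 1)).2.1 (Nat.pair x y) (by omega)
      (Nat.pair y x) (by omega) (by simp) (by simp)
  refine ⟨⟨?_, hext⟩, fun u hu hj hd => ?_⟩
  · exact
      { refl := fun x => hext x x (hR.refl x)
        trans := fun x y z k1 k2 =>
          (hX (Nat.pair x y + Nat.pair y z + Nat.pair x z + 1)).2.2.1 (Nat.pair x y) (by omega)
            (Nat.pair y z) (by omega) (Nat.pair x z) (by omega) (by simp) (by simp) (by simp) k1 k2
        antisymm := fun x y => (h2 x y).2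
        total := fun x y => (h2 x y).1 }
  · obtain ⟨e, he⟩ := exists_index hu
    obtain ⟨T, hT⟩ := exists_time (4 ^ Nat.pair 0 e) fun i _ => he i
    obtain ⟨B, hB⟩ : ∃ B, ∀ i < 4 ^ Nat.pair 0 e,
        Nat.pair (u i).unpair.2 (u i).unpair.1 + Nat.pair (u (i + 1)).unpair.1 (u i).unpair.2 ≤ B :=
      ⟨(Finset.range (4 ^ Nat.pair 0 e)).sup fun i =>
        Nat.pair (u i).unpair.2 (u i).unpair.1 + Nat.pair (u (i + 1)).unpair.1 (u i).unpair.2,
        fun i hi => Finset.le_sup (f := fun i =>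
          Nat.pair (u i).unpair.2 (u i).unpair.1 + Nat.pair (u (i + 1)).unpair.1 (u i).unpair.2)
          (Finset.mem_range.2 hi)⟩
    have hv : ∀ i < 4 ^ Nat.pair 0 e,
        Code.evaln (T + B + e + 1) (Denumerable.ofNat Code e) i = some (u i) :=
      fun i hi => Code.evaln_mono (by omega) (hT i hi)
    have hw : ∀ i < 4 ^ Nat.pair 0 e, ev (T + B + e + 1) e i = u i := by
      intro i hi
      unfold ev
      rw [hv i hi]; rfl
    refine (hX (T + B + e + 1)).2.2.2 e (by omega) (fun i hi => ?_) fun i hi => ?_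
    · have := hB i hi
      beta_reduce
      rw [hw i hi, hv i hi]
      exact ⟨by simp, hj i, by omega, fun k => by rw [hw _ k]; omega⟩
    · beta_reduce
      rw [hw i hi]
      exact ⟨(hd i).1, fun k => by rw [hw _ k]; exact (hd i).2⟩

theorem upper_pa {R : ℕ → ℕ → Prop} (hR : CompPoset R) {o : ℕ → ℕ} (ho : PADegree o) :
    ∃ L, LinExt R L ∧ Good R L ∧ RelIn o L := by
  obtain ⟨X, hX⟩ := cond_exists hR.1
  obtain ⟨W, hW, h1, h2⟩ := pa_path (C := fun w s => Cond R (bt w) s)
    (p_cond (p_of_computablePred hR.2))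
    (fun w w' s h => cond_local fun a ha => bt_congr h ha)
    (fun s => by
      obtain ⟨w, hw⟩ := exists_bits X s
      exact ⟨w, fun i hi => cond_local (fun a ha => (hw a (by omega)).symm) (hX i)⟩) ho
  have hY : ∀ s, Cond R (fun a => bt (W (a + 1)) a) s := fun s =>
    cond_local (fun a ha => bt_congr (s := a + 1)
      (by rw [h2 (a + 1) s ha, h2 (a + 1) (a + 1) le_rfl]) (by omega)) (h1 s)
  obtain ⟨k1, k2⟩ := good_of_cond hR.1 hY
  refine ⟨_, k1, k2, fun z => W (z + 1) / 2 ^ z % 2, ?_, fun x y => Iff.rfl⟩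
  show ComputableIn {fun n => Part.some (o n)} _
  fun_prop

theorem upper {R : ℕ → ℕ → Prop} (hR : CompPoset R) {o : ℕ → ℕ}
    (ho : Hyperimmune o ∨ PADegree o) : ∃ L, LinExt R L ∧ Good R L ∧ RelIn o L :=
  ho.elim (upper_hyp hR) (upper_pa hR)

end Pool.Agent.MP_f7ace6_lc

end

section

set_option autoImplicit false

namespace Pool.Agent.MP_f7ace6_lc

open Encodable Classical Nat.Partrec

theorem compWF_of_good {R L : ℕ → ℕ → Prop} (hR : CompPoset R) (hwf : CompWF R)
    (hL : LinExt R L) (hg : Good R L) : CompWF L := by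
  rintro ⟨f, hf, hd⟩
  have hf' : ComputableIn ∅ f := hf.computableIn
  have hRp : PIn ∅ fun z : ℕ × ℕ => R z.1 z.2 := p_of_computablePred hR.2
  have hex : ∀ m, ∃ k, ¬ R (f (m + k + 1)) (f (m + k)) := by
    intro m
    by_contra hc
    push Not at hc
    exact hwf ⟨fun n => f (m + n), ci_empty.1 (by fun_prop), fun n => ⟨hc n, (hd (m + n)).2⟩⟩
  have hnx : ComputableIn ∅ fun m => Nat.find (hex m) :=
    p_find (p_not (p_rel hRp (by fun_prop) (by fun_prop))) hex
  let M : ℕ → ℕ := fun i => Nat.rec (motive := fun _ => ℕ) (0 + Nat.find (hex 0))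
    (fun _ m => m + 1 + Nat.find (hex (m + 1))) i
  have hM : ComputableIn ∅ M :=
    ci_rec (f := fun n : ℕ => n) (h := fun _ _ m => m + 1 + Nat.find (hex (m + 1))) c_id
      (c_const _) (c_add (by fun_prop)
        (c_comp (g := fun z : ℕ × ℕ × ℕ => z.2.2 + 1) hnx (by fun_prop)))
  have anti : ∀ a k, L (f (a + k)) (f a) := by
    intro a k
    induction k with
    | zero => exact hL.1.refl _
    | succ k ih => exact hL.1.trans _ _ _ (hd (a + k)).1 ih
  refine hg (fun i => Nat.pair (f (M i)) (f (M i + 1))) (ci_empty.1 (by fun_prop)) (fun i => ?_)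
    fun i => ?_
  · simp only [Nat.unpair_pair]
    cases i with
    | zero => exact Nat.find_spec (hex 0)
    | succ i => exact Nat.find_spec (hex (M i + 1))
  · simp only [Nat.unpair_pair]
    exact ⟨(hd _).1, anti (M i + 1) _⟩

/-- Comparison of rationals on codes. -/
def rlt (a b : ℕ) : Prop :=
  a.unpair.1 * (b.unpair.2.unpair.2 + 1) + b.unpair.2.unpair.1 * (a.unpair.2.unpair.2 + 1) <
    b.unpair.1 * (a.unpair.2.unpair.2 + 1) + a.unpair.2.unpair.1 * (b.unpair.2.unpair.2 + 1)

theorem rlt_iff (a b : ℕ) : rlt a b ↔ ratOf a < ratOf b := by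
  unfold rlt ratOf
  rw [div_lt_div_iff₀ (by positivity) (by positivity), ← Nat.cast_lt (α := ℚ)]
  push_cast
  constructor <;> intro h <;> linarith

@[fun_prop] theorem p_rlt {α : Type} [Primcodable α] {O : Set (ℕ →. ℕ)} {f g : α → ℕ}
    (hf : ComputableIn O f) (hg : ComputableIn O g) : PIn O fun a => rlt (f a) (g a) := by
  unfold rlt; fun_prop

theorem ratOf_surj (q : ℚ) : ∃ n, ratOf n = q := by
  refine ⟨Nat.pair q.num.toNat (Nat.pair (-q.num).toNat (q.den - 1)), ?_⟩
  unfold ratOf
  simp only [Nat.unpair_pair]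
  have h1 : ((q.den - 1 : ℕ) : ℚ) + 1 = q.den := by
    have := q.den_pos
    exact_mod_cast (by omega : q.den - 1 + 1 = q.den)
  have h2 : ((q.num.toNat : ℕ) : ℚ) - (((-q.num).toNat : ℕ) : ℚ) = q.num := by
    have : (q.num.toNat : ℤ) - ((-q.num).toNat : ℤ) = q.num := by omega
    exact_mod_cast this
  rw [h1, h2, Rat.num_div_den]

/-- An increasing map of the rationals into the interval from `-n-1` to `-n`. -/
def sq (n : ℕ) (q : ℚ) : ℚ := -n - 1 / 2 + q / (2 * (1 + |q|))

theorem sq_mem (n : ℕ) (q : ℚ) : -(n : ℚ) - 1 < sq n q ∧ sq n q < -n := by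
  unfold sq
  have h0 : 0 < 2 * (1 + |q|) := by positivity
  have h1 : q / (2 * (1 + |q|)) < 1 / 2 := by
    rw [div_lt_div_iff₀ h0 (by norm_num)]; linarith [le_abs_self q]
  have h2 : -(1 / 2) < q / (2 * (1 + |q|)) := by
    rw [lt_div_iff₀ h0]; linarith [neg_abs_le q]
  constructor <;> linarith

theorem sq_lt (n : ℕ) {p q : ℚ} (h : p < q) : sq n p < sq n q := by
  unfold sq
  have : p / (2 * (1 + |p|)) < q / (2 * (1 + |q|)) := by
    rw [div_lt_div_iff₀ (by positivity) (by positivity)]
    rcases abs_cases p with ⟨h1, h2⟩ | ⟨h1, h2⟩ <;> rcases abs_cases q with ⟨h3, h4⟩ | ⟨h3, h4⟩ <;>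
      rw [h1, h3] <;> nlinarith
  linarith

/-- The map `sq` on codes. -/
def sqc (n z : ℕ) : ℕ :=
  Nat.pair z.unpair.1 (Nat.pair (z.unpair.2.unpair.1 + (2 * n + 1) *
    (z.unpair.2.unpair.2 + 1 + ((z.unpair.1 - z.unpair.2.unpair.1) + (z.unpair.2.unpair.1 - z.unpair.1))))
    (2 * (z.unpair.2.unpair.2 + ((z.unpair.1 - z.unpair.2.unpair.1) +
      (z.unpair.2.unpair.1 - z.unpair.1))) + 1))

theorem ratOf_sqc (n z : ℕ) : ratOf (sqc n z) = sq n (ratOf z) := by
  unfold sqc sq ratOf
  simp only [Nat.unpair_pair]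
  generalize z.unpair.1 = a
  generalize z.unpair.2.unpair.1 = b
  generalize z.unpair.2.unpair.2 = c
  have hD : (((a - b) + (b - a) : ℕ) : ℚ) = |(a : ℚ) - b| := by
    rcases le_total a b with h | h
    · have h' : (a : ℚ) ≤ b := by exact_mod_cast h
      rw [Nat.sub_eq_zero_of_le h, zero_add, Nat.cast_sub h, abs_of_nonpos (by linarith)]; ring
    · have h' : (b : ℚ) ≤ a := by exact_mod_cast h
      rw [Nat.sub_eq_zero_of_le h, add_zero, Nat.cast_sub h, abs_of_nonneg (by linarith)]
  generalize (a - b) + (b - a) = D at hD ⊢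
  rw [abs_div, ← hD, abs_of_pos (by positivity : (0 : ℚ) < c + 1)]
  push_cast
  field_simp
  ring

theorem compScattered_of_good {R L : ℕ → ℕ → Prop} (hR : CompPoset R) (hsc : CompScattered R)
    (hg : Good R L) : CompScattered L := by
  rintro ⟨g, hc, hinj, hd⟩
  have hc' : ComputableIn ∅ fun n => g (ratOf n) := hc.computableIn
  have hRp : PIn ∅ fun z : ℕ × ℕ => R z.1 z.2 := p_of_computablePred hR.2
  have hneg : ∀ n : ℕ, ratOf (Nat.pair 0 (Nat.pair n 0)) = -n := fun n => by simp [ratOf]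
  have hex : ∀ n : ℕ, ∃ z : ℕ, rlt (Nat.pair 0 (Nat.pair (n + 1) 0)) z.unpair.1 ∧
      rlt z.unpair.1 z.unpair.2 ∧ rlt z.unpair.2 (Nat.pair 0 (Nat.pair n 0)) ∧
      ¬ R (g (ratOf z.unpair.1)) (g (ratOf z.unpair.2)) := by
    intro n
    by_contra hcon
    push Not at hcon
    have hs : ∀ p q, p < q → R (g (sq n p)) (g (sq n q)) ∧ g (sq n p) ≠ g (sq n q) := by
      intro p q hpq
      refine ⟨?_, (hd _ _ (sq_lt n hpq)).2⟩
      obtain ⟨a, ha⟩ := ratOf_surj (sq n p)
      obtain ⟨b, hb⟩ := ratOf_surj (sq n q)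
      have := hcon (Nat.pair a b)
      simp only [Nat.unpair_pair, rlt_iff, hneg, ha, hb] at this
      refine this ?_ (sq_lt n hpq) (sq_mem n q).2
      have := (sq_mem n p).1
      push_cast
      linarith
    refine hsc ⟨fun q => g (sq n q), ?_, fun p q hpq => ?_, hs⟩
    · have h1 : ComputableIn ∅ fun z => sqc n z := by unfold sqc; fun_prop
      exact ci_empty.1 (ci_of_eq (ci_comp' (f := fun m => g (ratOf m)) hc' h1) fun z => by
        rw [ratOf_sqc])
    · by_contra hne
      rcases lt_or_gt_of_ne hne with h | h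
      · exact (hs _ _ h).2 hpq
      · exact (hs _ _ h).2 hpq.symm
  obtain ⟨G, hG⟩ : ∃ G : ℕ → ℕ, ∀ n, g (ratOf n) = G n := ⟨_, fun _ => rfl⟩
  have hG' : ComputableIn ∅ G := ci_of_eq hc' hG
  simp only [hG] at hex
  obtain ⟨Z, hZ, hs⟩ := p_choose (O := ∅) (p_and (by fun_prop) (p_and (by fun_prop)
    (p_and (by fun_prop) (p_not (p_rel hRp (by fun_prop) (by fun_prop)))))) hex
  refine hg (fun n => Nat.pair (G (Z n).unpair.2) (G (Z n).unpair.1)) (ci_empty.1 (by fun_prop))
    (fun i => ?_) fun i => ?_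
  · simp only [Nat.unpair_pair]
    exact (hs i).1.2.2.2
  · simp only [Nat.unpair_pair, ← hG]
    obtain ⟨h1, h2, -, -⟩ := (hs i).1
    obtain ⟨-, -, h3, -⟩ := (hs (i + 1)).1
    rw [rlt_iff] at h1 h2 h3
    exact ⟨(hd _ _ h2).1, (hd _ _ (h3.trans h1)).1⟩

end Pool.Agent.MP_f7ace6_lc

end

section

set_option autoImplicit false

namespace Pool.Agent.MP_f7ace6_lc

open Encodable Classical Nat.Partrec

/-- The location of an element. -/
def loc (z : ℕ) : List ℕ := Denumerable.ofNat (List ℕ) z.unpair.2.unpair.1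

/-- The element of strategy `j` at location `l` with label `a`. -/
def mk (j : ℕ) (l : List ℕ) (a : ℕ) : ℕ := Nat.pair j (Nat.pair (encode l) a)

@[simp] theorem loc_mk (j : ℕ) (l : List ℕ) (a : ℕ) : loc (mk j l a) = l := by simp [loc, mk]
@[simp] theorem fst_mk (j : ℕ) (l : List ℕ) (a : ℕ) : (mk j l a).unpair.1 = j := by simp [mk]
@[simp] theorem lab_mk (j : ℕ) (l : List ℕ) (a : ℕ) : (mk j l a).unpair.2.unpair.2 = a := by
  simp [mk]

/-- The guess at time `t` for a bit differing from the diagonal value at `k`. -/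
def rb (t k : ℕ) : ℕ := if Code.evaln t (Denumerable.ofNat Code k) k = some 0 then 1 else 0

/-- Strategy `j` has closed location `l` by time `t`. -/
def Cl (j : ℕ) (l : List ℕ) (t : ℕ) : Prop :=
  Code.evaln t (Denumerable.ofNat Code j) (Nat.pair j (encode l)) ≠ Option.none ∧
    ev t j (Nat.pair j (encode l)) ≤ t

/-- `t` is the closing time of location `l`. -/
def Time (j : ℕ) (l : List ℕ) (t : ℕ) : Prop := Cl j l t ∧ Ball t fun t' => ¬ Cl j l t'

/-- Valid locations. -/
def Valid (S : List ℕ → Prop) (j : ℕ) (l : List ℕ) : Prop :=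
  Ball l.length fun i => Time j (l.take i) (l.getD i 0 / 2) ∧ S (l.take (i + 1))

/-- Proper initial segment. -/
def Pre (m l : List ℕ) : Prop := m.length < l.length ∧ l.take m.length = m

/-- The element `a` at a shorter location is linked to `b` in direction `d`. -/
def Lk (S : List ℕ → Prop) (a b d : ℕ) : Prop :=
  a.unpair.1 = b.unpair.1 ∧ Pre (loc a) (loc b) ∧ Valid S b.unpair.1 (loc b) ∧
    (loc b).getD (loc a).length 0 % 2 = d ∧
    (a.unpair.2.unpair.2 + rb ((loc b).getD (loc a).length 0 / 2) (a.unpair.2.unpair.2 / 2)) % 2 = d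

/-- The poset. -/
def PO (S : List ℕ → Prop) (x y : ℕ) : Prop := x = y ∨ Lk S x y 0 ∨ Lk S y x 1

theorem time_unique {j t t' : ℕ} {l : List ℕ} (h : Time j l t) (h' : Time j l t') : t = t' := by
  rcases lt_trichotomy t t' with k | k | k
  · exact absurd h.1 (h'.2 t k)
  · exact k
  · exact absurd h'.1 (h.2 t' k)

theorem getD_take (l : List ℕ) {i n : ℕ} (h : i < n) : (l.take n).getD i 0 = l.getD i 0 := by
  simp [List.getD_eq_getElem?_getD, h]

theorem Pre.getD {m l : List ℕ} (h : Pre m l) {i : ℕ} (hi : i < m.length) :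
    l.getD i 0 = m.getD i 0 := by
  rw [← getD_take l hi, h.2]

theorem Pre.take {m l : List ℕ} (h : Pre m l) {i : ℕ} (hi : i ≤ m.length) :
    l.take i = m.take i := by
  conv_rhs => rw [← h.2, List.take_take, min_eq_left hi]

theorem Pre.trans {k m l : List ℕ} (h : Pre k m) (h' : Pre m l) : Pre k l :=
  ⟨h.1.trans h'.1, by rw [h'.take h.1.le, h.2]⟩

theorem Pre.of_lt {k m l : List ℕ} (h : Pre k l) (h' : Pre m l) (hl : k.length < m.length) :
    Pre k m := ⟨hl, by rw [← h'.take hl.le, h.2]⟩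

theorem Valid.pre {S : List ℕ → Prop} {j : ℕ} {m l : List ℕ} (h : Valid S j l) (hp : Pre m l) :
    Valid S j m := by
  intro i hi
  have := h i (hi.trans hp.1)
  beta_reduce at this ⊢
  rwa [hp.take hi.le, hp.getD hi, hp.take hi] at this

section
variable {S : List ℕ → Prop} {a b c d d' : ℕ}

theorem Lk.time (h : Lk S a b d) :
    Time a.unpair.1 (loc a) ((loc b).getD (loc a).length 0 / 2) := by
  have := (h.2.2.1 _ h.2.1.1).1
  rwa [h.2.1.2, ← h.1] at this

theorem lk_dir (h : Lk S a b d) (h' : Lk S a c d') : d = d' := by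
  have := time_unique h.time h'.time
  rw [← h.2.2.2.2, ← h'.2.2.2.2, this]

theorem lk_up (h : Lk S a b d) (h' : Lk S b c d') : Lk S a c d := by
  obtain ⟨h1, h2, -, h4, h5⟩ := h
  refine ⟨h1.trans h'.1, h2.trans h'.2.1, h'.2.2.1, ?_, ?_⟩ <;> rwa [h'.2.1.getD h2.1]

theorem lk_mid (h : Lk S a c d) (h' : Lk S b c d') (hl : (loc a).length < (loc b).length) :
    Lk S a b d := by
  obtain ⟨h1, h2, h3, h4, h5⟩ := h
  refine ⟨h1.trans h'.1.symm, h2.of_lt h'.2.1 hl, h'.1 ▸ h3.pre h'.2.1, ?_, ?_⟩ <;>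
    rwa [← h'.2.1.getD hl]

theorem lk_eq (h : Lk S a c d) (h' : Lk S b c d') (hl : (loc a).length = (loc b).length) :
    d = d' := by
  rw [← h.2.2.2.1, ← h'.2.2.2.1, hl]

theorem Lk.len (h : Lk S a b d) : (loc a).length < (loc b).length := h.2.1.1

end

theorem po_order (S : List ℕ → Prop) : IsPartialOrder ℕ (PO S) where
  refl x := Or.inl rfl
  trans x y z h1 h2 := by
    rcases h1 with rfl | h1 | h1
    · exact h2
    · rcases h2 with rfl | h2 | h2
      · exact Or.inr (Or.inl h1)
      · exact Or.inr (Or.inl (lk_up h1 h2))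
      · rcases lt_trichotomy (loc x).length (loc z).length with k | k | k
        · exact Or.inr (Or.inl (lk_mid h1 h2 k))
        · exact absurd (lk_eq h1 h2 k) (by decide)
        · exact Or.inr (Or.inr (lk_mid h2 h1 k))
    · rcases h2 with rfl | h2 | h2
      · exact Or.inr (Or.inr h1)
      · exact absurd (lk_dir h1 h2) (by decide)
      · exact Or.inr (Or.inr (lk_up h2 h1))
  antisymm x y h1 h2 := by
    rcases h1 with rfl | h1 | h1
    · rfl
    · rcases h2 with rfl | h2 | h2
      · rfl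
      · exact absurd (h1.len.trans h2.len) (lt_irrefl _)
      · exact absurd (lk_dir h1 h2) (by decide)
    · rcases h2 with rfl | h2 | h2
      · rfl
      · exact absurd (lk_dir h1 h2) (by decide)
      · exact absurd (h1.len.trans h2.len) (lt_irrefl _)

section
variable {α : Type} [Primcodable α] {O : Set (ℕ →. ℕ)}

@[fun_prop] theorem c_loc {f : α → ℕ} (hf : ComputableIn O f) :
    ComputableIn O fun a => loc (f a) :=
  c_p1 (F := fun n => Denumerable.ofNat (List ℕ) n) (Primrec.ofNat (List ℕ))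
    (c_fst (c_unpair (c_snd (c_unpair hf))))

@[fun_prop] theorem c_mk {f h : α → ℕ} {g : α → List ℕ} (hf : ComputableIn O f)
    (hg : ComputableIn O g) (hh : ComputableIn O h) :
    ComputableIn O fun a => mk (f a) (g a) (h a) :=
  c_npair hf (c_npair (c_encode hg) hh)

@[fun_prop] theorem c_rb {f g : α → ℕ} (hf : ComputableIn O f) (hg : ComputableIn O g) :
    ComputableIn O fun a => rb (f a) (g a) := by
  unfold rb; fun_prop

@[fun_prop] theorem p_cl {f h : α → ℕ} {g : α → List ℕ} (hf : ComputableIn O f)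
    (hg : ComputableIn O g) (hh : ComputableIn O h) : PIn O fun a => Cl (f a) (g a) (h a) :=
  p_and (p_ne (c_evaln hh (c_ofNat hf) (c_npair hf (c_encode hg))) (c_const _))
    (p_le (c_ev hh hf (c_npair hf (c_encode hg))) hh)

@[fun_prop] theorem p_time {f h : α → ℕ} {g : α → List ℕ} (hf : ComputableIn O f)
    (hg : ComputableIn O g) (hh : ComputableIn O h) : PIn O fun a => Time (f a) (g a) (h a) := by
  unfold Time; fun_prop

theorem p_valid {S : List ℕ → Prop} (hS : PIn O S) {f : α → ℕ} {g : α → List ℕ}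
    (hf : ComputableIn O f) (hg : ComputableIn O g) : PIn O fun a => Valid S (f a) (g a) := by
  unfold Valid; fun_prop

@[fun_prop] theorem p_pre {f g : α → List ℕ} (hf : ComputableIn O f) (hg : ComputableIn O g) :
    PIn O fun a => Pre (f a) (g a) := by
  unfold Pre; fun_prop

theorem p_lk {S : List ℕ → Prop} (hS : PIn O S) {f g : α → ℕ} (d : ℕ)
    (hf : ComputableIn O f) (hg : ComputableIn O g) : PIn O fun a => Lk S (f a) (g a) d :=
  p_and (by fun_prop) (p_and (by fun_prop) (p_and (p_valid hS (by fun_prop) (by fun_prop))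
    (by fun_prop)))

end

theorem po_comp {S : List ℕ → Prop} (hS : PIn ∅ S) : CompPoset (PO S) :=
  ⟨po_order S, p_empty (p_or (by fun_prop)
    (p_or (p_lk hS 0 (by fun_prop) (by fun_prop)) (p_lk hS 1 (by fun_prop) (by fun_prop))))⟩

theorem core {S : List ℕ → Prop} {L : ℕ → ℕ → Prop} (hL : LinExt (PO S) L) {o : ℕ → ℕ}
    (hLo : RelIn o L) (h1 : ¬ Hyperimmune o) (h2 : ¬ PADegree o) :
    ∃ (j : ℕ) (τ : List ℕ → ℕ), ComputableIn ∅ τ ∧ (∀ l, Time j l (τ l)) ∧
      ∀ l x y, x.unpair.1 = j → y.unpair.1 = j → Pre l (loc x) → Pre l (loc y) →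
        Valid S j (loc x) → Valid S j (loc y) → (loc x).getD l.length 0 % 2 = 1 →
        (loc y).getD l.length 0 % 2 = 0 → L x y ∧ x ≠ y := by
  obtain ⟨χ, hχ, hχL⟩ := hLo
  have hχ' : ComputableIn {fun n => Part.some (o n)} χ := hχ
  obtain ⟨G, hG⟩ : ∃ G : ℕ → ℕ → ℕ, ∀ z k, G z k =
      if χ (Nat.pair (Nat.pair z.unpair.1 (Nat.pair z.unpair.2 (2 * k)))
        (Nat.pair z.unpair.1 (Nat.pair z.unpair.2 (2 * k + 1)))) = 1 then 0 else 1 :=
    ⟨_, fun _ _ => rfl⟩
  have hGc : ComputableIn {fun n => Part.some (o n)} fun p : ℕ × ℕ => G p.1 p.2 := by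
    simp only [hG]; fun_prop
  have hG1 : ∀ z k, G z k ≤ 1 := fun z k => by rw [hG]; split_ifs <;> omega
  have hex : ∀ z, ∃ n : ℕ, Code.evaln n.unpair.1 (Denumerable.ofNat Code n.unpair.2) n.unpair.2
      = some (G z n.unpair.2) := by
    intro z
    by_contra hc
    push Not at hc
    refine h2 ⟨G z, c_comp (g := fun k => (z, k)) hGc (by fun_prop), fun k => ⟨hG1 z k, fun hk => ?_⟩⟩
    obtain ⟨t, ht⟩ := Code.evaln_complete.1 hk
    exact hc (Nat.pair t k) (by simpa using ht)
  obtain ⟨D, hD, hDs⟩ := p_choose (O := {fun n => Part.some (o n)})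
    (P := fun z n : ℕ => Code.evaln n.unpair.1 (Denumerable.ofNat Code n.unpair.2) n.unpair.2
      = some (G z n.unpair.2))
    (p_eq (by fun_prop) (c_some (c_comp (g := fun p : ℕ × ℕ => (p.1, p.2.unpair.2)) hGc
      (by fun_prop)))) hex
  obtain ⟨h, hh, hDh⟩ : ∃ h : ℕ → ℕ, Computable h ∧ ∀ n, D n ≤ h n := by
    by_contra hc
    push Not at hc
    refine h1 ⟨D, hD, fun h hh m => ?_⟩
    have hh' : ComputableIn ∅ h := hh.computableIn
    obtain ⟨n, hn⟩ := hc (fun n => h n + (Finset.range m).sup D) (ci_empty.1 (by fun_prop))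
    refine ⟨n, ?_, by omega⟩
    by_contra hm
    have := Finset.le_sup (f := D) (Finset.mem_range.2 (not_le.1 hm))
    omega
  obtain ⟨j, hj⟩ := exists_index hh
  have hcl : ∀ l : List ℕ, ∃ t, Cl j l t := by
    intro l
    obtain ⟨T, hT⟩ := Code.evaln_complete.1 (hj (Nat.pair j (encode l)))
    have := Option.mem_def.1 (Code.evaln_mono (le_max_left T (h (Nat.pair j (encode l)))) hT)
    refine ⟨max T (h (Nat.pair j (encode l))), by rw [this]; simp, ?_⟩
    unfold ev
    rw [this]
    exact le_max_right _ _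
  obtain ⟨τ, hτ, hτs⟩ := p_choose (O := ∅) (P := fun l t => Cl j l t) (by fun_prop) hcl
  refine ⟨j, τ, hτ, hτs, fun l x y hx hy px py vx vy dx dy => ?_⟩
  have tx : (loc x).getD l.length 0 / 2 = τ l := by
    have := (vx _ px.1).1
    rw [px.2] at this
    exact time_unique this (hτs l)
  have ty : (loc y).getD l.length 0 / 2 = τ l := by
    have := (vy _ py.1).1
    rw [py.2] at this
    exact time_unique this (hτs l)
  have hle : h (Nat.pair j (encode l)) ≤ τ l := by
    obtain ⟨k1, k2⟩ := (hτs l).1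
    obtain ⟨v, hv⟩ := Option.ne_none_iff_exists'.1 k1
    unfold ev at k2
    rw [hv] at k2
    rwa [Part.mem_unique (hj _) (Code.evaln_sound hv)]
  obtain ⟨k, hk⟩ : ∃ k, Code.evaln (τ l) (Denumerable.ofNat Code k) k
      = some (G (Nat.pair j (encode l)) k) :=
    ⟨_, Code.evaln_mono (((Nat.unpair_left_le _).trans (hDh _)).trans hle)
      (hDs (Nat.pair j (encode l))).1⟩
  have hr : rb (τ l) k + G (Nat.pair j (encode l)) k = 1 := by
    unfold rb
    rw [hk]
    have := hG1 (Nat.pair j (encode l)) k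
    split_ifs with h0
    · simp only [Option.some.injEq] at h0; omega
    · simp only [Option.some.injEq] at h0; omega
  have hlo : L (mk j l (2 * k + G (Nat.pair j (encode l)) k))
      (mk j l (2 * k + rb (τ l) k)) := by
    have e := hG (Nat.pair j (encode l)) k
    simp only [Nat.unpair_pair, ← hχL] at e
    split_ifs at e with h0
    · rw [e, show rb (τ l) k = 1 by omega]; exact h0
    · rw [e, show rb (τ l) k = 0 by omega]
      exact (hL.1.total _ _).resolve_left h0
  have hb := hG1 (Nat.pair j (encode l)) k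
  have l1 : Lk S (mk j l (2 * k + G (Nat.pair j (encode l)) k)) x 1 := by
    refine ⟨by simp [hx], by simpa using px, hx ▸ vx, by simpa using dx, ?_⟩
    rw [lab_mk, loc_mk, tx, show (2 * k + G (Nat.pair j (encode l)) k) / 2 = k by omega]
    omega
  have l2 : Lk S (mk j l (2 * k + rb (τ l) k)) y 0 := by
    refine ⟨by simp [hy], by simpa using py, hy ▸ vy, by simpa using dy, ?_⟩
    rw [lab_mk, loc_mk, ty, show (2 * k + rb (τ l) k) / 2 = k by omega]
    omega
  refine ⟨hL.1.trans _ _ _ (hL.2 _ _ (Or.inr (Or.inr l1)))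
    (hL.1.trans _ _ _ hlo (hL.2 _ _ (Or.inr (Or.inl l2)))), fun e => ?_⟩
  rw [e] at dx
  omega

end Pool.Agent.MP_f7ace6_lc

end

section

set_option autoImplicit false

namespace Pool.Agent.MP_f7ace6_lc

open Encodable Classical Nat.Partrec

/-- The location of length `n` with bits `β` and closing times `τ`. -/
def bld (τ : List ℕ → ℕ) (β : ℕ → ℕ) (n : ℕ) : List ℕ :=
  Nat.rec (motive := fun _ => List ℕ) [] (fun i l => l ++ [2 * τ l + β i]) n

section
variable {τ : List ℕ → ℕ} {β β' : ℕ → ℕ}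

theorem bld_succ (n : ℕ) : bld τ β (n + 1) = bld τ β n ++ [2 * τ (bld τ β n) + β n] := rfl

@[simp] theorem bld_length (n : ℕ) : (bld τ β n).length = n := by
  induction n with
  | zero => rfl
  | succ n ih => simp [bld_succ, ih]

theorem bld_take {m n : ℕ} (h : m ≤ n) : (bld τ β n).take m = bld τ β m := by
  induction n, h using Nat.le_induction with
  | base => exact List.take_of_length_le (by simp)
  | succ n h ih => rw [bld_succ, List.take_append_of_le_length (by simpa using h), ih]

theorem bld_getD {i n : ℕ} (h : i < n) : (bld τ β n).getD i 0 = 2 * τ (bld τ β i) + β i := by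
  rw [← getD_take _ (Nat.lt_succ_self i), bld_take h, bld_succ,
    List.getD_append_right _ _ _ _ (by simp)]
  simp

theorem bld_congr {n : ℕ} (h : ∀ i < n, β i = β' i) : bld τ β n = bld τ β' n := by
  induction n with
  | zero => rfl
  | succ n ih => rw [bld_succ, bld_succ, ih fun i hi => h i (by omega), h n (by omega)]

theorem bld_pre {m n : ℕ} (h : m < n) : Pre (bld τ β m) (bld τ β n) :=
  ⟨by simpa using h, by rw [bld_length, bld_take h.le]⟩

theorem bld_valid {S : List ℕ → Prop} {j n : ℕ} (hτ : ∀ l, Time j l (τ l)) (hβ : ∀ i, β i ≤ 1)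
    (hS : ∀ i < n, S (bld τ β (i + 1))) : Valid S j (bld τ β n) := by
  intro i hi
  rw [bld_length] at hi
  have := hβ i
  rw [bld_take hi.le, bld_take hi, bld_getD hi,
    show (2 * τ (bld τ β i) + β i) / 2 = τ (bld τ β i) by omega]
  exact ⟨hτ _, hS i hi⟩

theorem c_bld {α : Type} [Primcodable α] {O : Set (ℕ →. ℕ)} (hτ : ComputableIn O τ)
    {B : α → ℕ → ℕ} (hB : ComputableIn O fun p : α × ℕ => B p.1 p.2) {n : α → ℕ}
    (hn : ComputableIn O n) : ComputableIn O fun a => bld τ (B a) (n a) := by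
  unfold bld
  refine ci_rec hn (c_const []) (c_append (by fun_prop) (c_cons (c_add (by fun_prop) ?_) (c_const [])))
  exact c_comp (g := fun z : α × ℕ × List ℕ => (z.1, z.2.1)) hB (by fun_prop)

end

/-- The splitting lemma in the form used twice below. -/
theorem split_lt {S : List ℕ → Prop} {L : ℕ → ℕ → Prop} {j : ℕ} {τ : List ℕ → ℕ}
    (hc : ∀ l x y, x.unpair.1 = j → y.unpair.1 = j → Pre l (loc x) → Pre l (loc y) →
        Valid S j (loc x) → Valid S j (loc y) → (loc x).getD l.length 0 % 2 = 1 →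
        (loc y).getD l.length 0 % 2 = 0 → L x y ∧ x ≠ y)
    {β β' : ℕ → ℕ} {n n' a a' : ℕ} (hb : ∀ i, β i ≤ 1) (hle : ∀ i, β' i ≤ β i)
    (v : Valid S j (bld τ β n)) (v' : Valid S j (bld τ β' n'))
    (h1 : ∃ i < n, β i ≠ β' i) (h2 : ∃ i < n', β i ≠ β' i) :
    L (mk j (bld τ β n) a) (mk j (bld τ β' n') a') ∧
      mk j (bld τ β n) a ≠ mk j (bld τ β' n') a' := by
  have hex : ∃ i, β i ≠ β' i := h1.imp fun _ h => h.2
  have k1 : Nat.find hex < n := by
    obtain ⟨i, hi, hne⟩ := h1
    exact lt_of_le_of_lt (Nat.find_min' hex hne) hi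
  have k2 : Nat.find hex < n' := by
    obtain ⟨i, hi, hne⟩ := h2
    exact lt_of_le_of_lt (Nat.find_min' hex hne) hi
  have e : bld τ β (Nat.find hex) = bld τ β' (Nat.find hex) :=
    bld_congr fun i hi => not_not.1 (Nat.find_min hex hi)
  have s1 := Nat.find_spec hex
  have s2 := hb (Nat.find hex)
  have s3 := hle (Nat.find hex)
  refine hc (bld τ β (Nat.find hex)) _ _ (by simp) (by simp) ?_ ?_ (by simpa using v)
    (by simpa using v') ?_ ?_
  · rw [loc_mk]; exact bld_pre k1
  · rw [loc_mk, e]; exact bld_pre k2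
  · rw [loc_mk, bld_length, bld_getD k1]; omega
  · rw [loc_mk, bld_length, bld_getD k2]; omega

/-- The tree condition for the well-founded case. -/
def SW (l : List ℕ) : Prop :=
  Ball l.length fun i => (i % 2 = 0 → l.getD i 0 % 2 = 1) ∧
    (i % 2 = 1 → Code.evaln l.length (Denumerable.ofNat Code (i / 2)) (i / 2) ≠
      some (l.getD i 0 % 2))

theorem p_SW : PIn ∅ SW := by unfold SW; fun_prop

theorem po_compWF : CompWF (PO SW) := by
  rintro ⟨f, hf, hd⟩
  have hf' : ComputableIn ∅ f := hf.computableIn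
  have hstep : ∀ n, Lk SW (f (n + 1)) (f n) 0 ∨ Lk SW (f n) (f (n + 1)) 1 :=
    fun n => (hd n).1.resolve_left (hd n).2
  have hall : ∀ n, Lk SW (f n) (f (n + 1)) 1 := by
    intro n
    by_contra hn
    have h0 : ∀ k, Lk SW (f (n + k + 1)) (f (n + k)) 0 := by
      intro k
      induction k with
      | zero => exact (hstep n).resolve_right hn
      | succ k ih => exact (hstep (n + k + 1)).resolve_right fun h => absurd (lk_dir ih h) (by decide)
    have h1 : ∀ k, (loc (f (n + k))).length + k ≤ (loc (f n)).length := by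
      intro k
      induction k with
      | zero => simp
      | succ k ih =>
        have := (h0 k).len
        rw [← add_assoc n k 1]; omega
    have := h1 ((loc (f n)).length + 1)
    omega
  have hlen : ∀ n, n ≤ (loc (f n)).length := by
    intro n
    induction n with
    | zero => omega
    | succ n ih => have := (hall n).len; omega
  have hpre : ∀ m k, Pre (loc (f m)) (loc (f (m + k + 1))) := by
    intro m k
    induction k with
    | zero => exact (hall m).2.1
    | succ k ih => exact ih.trans (hall (m + k + 1)).2.1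
  obtain ⟨e, he⟩ := exists_index (u := fun e => (loc (f (2 * e + 2))).getD (2 * e + 1) 0 % 2)
    (ci_empty.1 (by fun_prop))
  obtain ⟨T, hT⟩ := Code.evaln_complete.1 (he e)
  have hv := (hall (2 * e + 2 + T)).2.2.1
  have hl := hlen (2 * e + 2 + T + 1)
  have hs := (hv ((loc (f (2 * e + 2 + T + 1))).length - 1) (by omega)).2
  rw [List.take_of_length_le (by omega)] at hs
  have := (hs (2 * e + 1) (by omega)).2 (by omega)
  rw [show (2 * e + 1) / 2 = e by omega,
    (hpre (2 * e + 2) T).getD (by have := hlen (2 * e + 2); omega)] at this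
  exact this (Code.evaln_mono (by omega) hT)

theorem rb_le (t k : ℕ) : rb t k ≤ 1 := by unfold rb; split_ifs <;> omega

theorem rb_mono {t t' : ℕ} (h : t ≤ t') (k : ℕ) : rb t k ≤ rb t' k := by
  unfold rb
  split_ifs with h1 h2
  · omega
  · exact absurd (Code.evaln_mono h h1) h2
  · omega
  · omega

theorem rb_ne {s t : ℕ} (h : s ≤ t) (k : ℕ) :
    Code.evaln s (Denumerable.ofNat Code k) k ≠ some (rb t k) := by
  intro hs
  have := Option.mem_def.1 (Code.evaln_mono h hs)
  unfold rb at this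
  split_ifs at this with h1
  · rw [h1] at this; simp at this
  · exact h1 this

theorem lower_wf {L : ℕ → ℕ → Prop} (hL : LinExt (PO SW) L) (hwf : CompWF L) {o : ℕ → ℕ}
    (hLo : RelIn o L) : Hyperimmune o ∨ PADegree o := by
  by_contra hc
  push Not at hc
  obtain ⟨j, τ, hτ, hτs, hcore⟩ := core hL hLo hc.1 hc.2
  obtain ⟨B, hB⟩ : ∃ B : ℕ → ℕ → ℕ, ∀ n i, B n i = if i % 2 = 0 then 1 else rb (2 * n) (i / 2) :=
    ⟨_, fun _ _ => rfl⟩
  have hBc : ComputableIn ∅ fun p : ℕ × ℕ => B p.1 p.2 := by simp only [hB]; fun_prop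
  have hB1 : ∀ n i, B n i ≤ 1 := fun n i => by
    rw [hB]; split_ifs
    · omega
    · exact rb_le _ _
  have hBm : ∀ n i, B n i ≤ B (n + 1) i := fun n i => by
    rw [hB, hB]; split_ifs
    · omega
    · exact rb_mono (by omega) _
  have hval : ∀ n, Valid SW j (bld τ (B n) (2 * n)) := by
    intro n
    refine bld_valid hτs (hB1 n) fun i hi i' hi' => ?_
    rw [bld_length] at hi'
    have := hB1 n i'
    rw [bld_length, bld_getD hi', show (2 * τ (bld τ (B n) i') + B n i') % 2 = B n i' by omega, hB]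
    refine ⟨fun h => by rw [if_pos h], fun h => ?_⟩
    rw [if_neg (by omega)]
    exact rb_ne (by omega) _
  have hl : ComputableIn ∅ fun n => bld τ (B n) (2 * n) := c_bld hτ hBc (by fun_prop)
  refine hwf ⟨fun n => mk j (bld τ (B n) (2 * n)) (1 - rb (τ (bld τ (B n) (2 * n))) 0),
    ci_empty.1 (c_mk (c_const j) hl (c_tsub (c_const 1) (c_rb (c_comp hτ hl) (c_const 0)))),
    fun n => ?_⟩
  by_cases hd : ∃ i < 2 * n, B (n + 1) i ≠ B n i
  · exact split_lt hcore (hB1 (n + 1)) (hBm n) (hval (n + 1)) (hval n)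
      (hd.imp fun i h => ⟨by omega, h.2⟩) hd
  · push Not at hd
    have e : bld τ (B n) (2 * n) = bld τ (B (n + 1)) (2 * n) :=
      bld_congr fun i hi => (hd i hi).symm
    have lk : Lk SW (mk j (bld τ (B n) (2 * n)) (1 - rb (τ (bld τ (B n) (2 * n))) 0))
        (mk j (bld τ (B (n + 1)) (2 * (n + 1))) (1 - rb (τ (bld τ (B (n + 1)) (2 * (n + 1)))) 0))
        1 := by
      have hb : B (n + 1) (2 * n) = 1 := by rw [hB, if_pos (by omega)]
      refine ⟨by simp, ?_, by simpa using hval (n + 1), ?_, ?_⟩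
      · rw [loc_mk, loc_mk, e]; exact bld_pre (by omega)
      · rw [loc_mk, loc_mk, bld_length, bld_getD (by omega), hb]; omega
      · have := rb_le (τ (bld τ (B n) (2 * n))) 0
        rw [lab_mk, loc_mk, loc_mk, bld_length, bld_getD (by omega), hb, ← e,
          show (2 * τ (bld τ (B n) (2 * n)) + 1) / 2 = τ (bld τ (B n) (2 * n)) by omega,
          show (1 - rb (τ (bld τ (B n) (2 * n))) 0) / 2 = 0 by omega]
        omega
    refine ⟨hL.2 _ _ (Or.inr (Or.inr lk)), fun h => ?_⟩
    have := lk.len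
    beta_reduce at h
    rw [h] at this
    exact lt_irrefl _ this

theorem po_scattered (S : List ℕ → Prop) :
    ¬ ∃ g : ℚ → ℕ, ∀ p q, p < q → PO S (g p) (g q) ∧ g p ≠ g q := by
  rintro ⟨g, hg⟩
  have hex : ∃ n, ∃ q, (loc (g q)).length = n := ⟨_, 0, rfl⟩
  obtain ⟨q, hq⟩ := Nat.find_spec hex
  have hmin : ∀ p, (loc (g q)).length ≤ (loc (g p)).length :=
    fun p => hq ▸ Nat.find_min' hex ⟨p, rfl⟩
  obtain ⟨h1, h2⟩ := hg (q - 1) q (by linarith)
  obtain ⟨h3, h4⟩ := hg q (q + 1) (by linarith)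
  have k1 := (h1.resolve_left h2).resolve_left fun h => absurd h.len (not_lt.2 (hmin _))
  have k2 := (h3.resolve_left h4).resolve_right fun h => absurd h.len (not_lt.2 (hmin _))
  exact absurd (lk_dir k1 k2) (by decide)

theorem lower_sc {L : ℕ → ℕ → Prop} (hL : LinExt (PO fun _ => True) L) (hsc : CompScattered L)
    {o : ℕ → ℕ} (hLo : RelIn o L) : Hyperimmune o ∨ PADegree o := by
  by_contra hc
  push Not at hc
  obtain ⟨j, τ, hτ, hτs, hcore⟩ := core hL hLo hc.1 hc.2
  obtain ⟨B, hB⟩ : ∃ B : ℚ → ℕ → ℕ, ∀ q i, B q i =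
      if i % 2 = 0 then (if q < ratOf (i / 2) then 1 else 0)
      else (if ratOf (i / 2) < q then 0 else 1) := ⟨_, fun _ _ => rfl⟩
  have hBc : ComputableIn ∅ fun p : ℕ × ℕ => B (ratOf p.1) p.2 := by
    refine ci_of_eq (f := fun p : ℕ × ℕ => if p.2 % 2 = 0 then (if rlt p.1 (p.2 / 2) then 1 else 0)
      else (if rlt (p.2 / 2) p.1 then 0 else 1)) (by fun_prop) fun p => ?_
    rw [hB, rlt_iff, rlt_iff]
    congr
  have hB1 : ∀ q i, B q i ≤ 1 := fun q i => by rw [hB]; split_ifs <;> omega
  have hBm : ∀ p q, p < q → ∀ i, B q i ≤ B p i := fun p q hpq i => by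
    rw [hB, hB]
    split_ifs <;> first | omega | (exfalso; linarith)
  obtain ⟨N, hN⟩ : ∃ N : ℚ → ℕ, ∀ q, N q = Nat.find (ratOf_surj q) := ⟨_, fun _ => rfl⟩
  have hNs : ∀ q, ratOf (N q) = q := fun q => by rw [hN]; exact Nat.find_spec (ratOf_surj q)
  have hNc : ComputableIn ∅ fun z => N (ratOf z) := by
    simp only [hN]
    refine p_find (P := fun z n => ratOf n = ratOf z) ?_ fun z => ratOf_surj (ratOf z)
    refine PIn.of_iff (p := fun p : ℕ × ℕ => ¬ rlt p.1 p.2 ∧ ¬ rlt p.2 p.1) (by fun_prop) fun p => ?_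
    rw [rlt_iff, rlt_iff, not_lt, not_lt]
    exact ⟨fun h => le_antisymm h.1 h.2, fun h => ⟨h.le, h.ge⟩⟩
  have hval : ∀ q n, Valid (fun _ => True) j (bld τ (B q) n) :=
    fun q n => bld_valid hτs (hB1 q) fun _ _ => trivial
  have hs : ∀ p q, p < q → L (mk j (bld τ (B p) (2 * N p + 2)) 0) (mk j (bld τ (B q) (2 * N q + 2)) 0)
      ∧ mk j (bld τ (B p) (2 * N p + 2)) 0 ≠ mk j (bld τ (B q) (2 * N q + 2)) 0 := by
    intro p q hpq
    refine split_lt hcore (hB1 p) (hBm p q hpq) (hval _ _) (hval _ _)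
      ⟨2 * N p + 1, by omega, ?_⟩ ⟨2 * N q, by omega, ?_⟩
    · rw [hB, hB, if_neg (by omega), if_neg (by omega : ¬ (2 * N p + 1) % 2 = 0),
        show (2 * N p + 1) / 2 = N p by omega, hNs, if_neg (lt_irrefl _), if_pos hpq]
      decide
    · rw [hB, hB, if_pos (by omega), if_pos (by omega : (2 * N q) % 2 = 0),
        show (2 * N q) / 2 = N q by omega, hNs, if_neg (lt_irrefl _), if_pos hpq]
      decide
  refine hsc ⟨fun q => mk j (bld τ (B q) (2 * N q + 2)) 0, ?_, fun p q hpq => ?_, hs⟩
  · exact ci_empty.1 (c_mk (c_const j) (c_bld (B := fun z => B (ratOf z)) hτ hBc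
      (c_add (c_mul (c_const 2) hNc) (c_const 2))) (c_const 0))
  · by_contra hne
    rcases lt_or_gt_of_ne hne with h | h
    · exact (hs _ _ h).2 hpq
    · exact (hs _ _ h).2 hpq.symm

end Pool.Agent.MP_f7ace6_lc

end
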